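import Pool.Agent.V8Lead.OR.Stm2

set_option autoImplicit false

/-!
Project OR: the bridge between the window counts `Wn`, `Wc` and the counting function `NZ`.
-/

namespace Pool.Agent.V8H58.OR

open Filter Topology MeasureTheory Complex H370
open Pool.Agent.V8Lead.OR
open SG (NZ ord)

noncomputable section

/-- the number of zeros in a window of ordinates is an increment of the counting function -/
theorem NN_eq {a b : ℝ} (ha : 1 ≤ a) (hab : a ≤ b) :
    (NN riemannZeta a b : ℝ) = (NZ b : ℝ) - NZ a := by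
  have h1 := SG.NZ_le_add a b ha
  have h2 : NZ a + NN riemannZeta a b ≤ NZ b := by
    have hfin := zset_finite good_zeta a b ha
    have e : NN riemannZeta a b = ∑ s ∈ hfin.toFinset, mult riemannZeta s := by
      unfold NN
      exact finsum_mem_eq_finite_toFinset_sum _ hfin
    have h1 := SG.NZ_add_le a b hab hfin.toFinset (by
      intro s hs
      rw [Set.Finite.mem_toFinset] at hs
      obtain ⟨a1, a2, a3, a4, a5⟩ := hs
      exact ⟨⟨a5, a1, a2, by linarith, a4⟩, a3⟩)
    rw [e]
    exact h1
  have h3 : NZ b = NZ a + NN riemannZeta a b := le_antisymm h1 h2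
  have h4 : (NZ b : ℝ) = NZ a + NN riemannZeta a b := by exact_mod_cast h3
  linarith

theorem Wn_eq {r t : ℝ} (hr : 0 ≤ r) (ht : 1 ≤ t - r) :
    Wn r t = (NZ (t + r) : ℝ) - NZ (t - r) := by
  unfold Wn
  exact NN_eq ht (by linarith)

/-- the window with left end `t` is the window of half length `π s / log T` with center `t + π s / log T` -/
theorem Wc_eq {T s t : ℝ} (hT : 1 ≤ T) (hs : 0 ≤ s) (ht : 1 ≤ t) :
    Wc T s t = Wn (Real.pi * s / Real.log T) (t + Real.pi * s / Real.log T) := by
  have h0 : 0 ≤ Real.pi * s / Real.log T := by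
    have := Real.log_nonneg hT
    have := Real.pi_pos
    positivity
  rw [Wn_eq h0 (by linarith)]
  unfold Wc
  have e1 : t + Real.pi * s / Real.log T + Real.pi * s / Real.log T = t + 2 * Real.pi * s / Real.log T := by
    ring
  have e2 : t + Real.pi * s / Real.log T - Real.pi * s / Real.log T = t := by ring
  rw [e1, e2]

theorem NZ_monoR : Monotone (fun t : ℝ => (NZ t : ℝ)) := fun a b h => by
  have := SG.NZ_mono h
  simp only
  exact_mod_cast this

theorem NZ_meas : Measurable (fun t : ℝ => (NZ t : ℝ)) := NZ_monoR.measurable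

theorem NZ_int (c a b : ℝ) : IntervalIntegrable (fun t : ℝ => (NZ (t + c) : ℝ)) volume a b :=
  Monotone.intervalIntegrable (fun x y h => NZ_monoR (by simpa using h))

theorem Wc_meas (T s : ℝ) : Measurable (Wc T s) := by
  unfold Wc
  exact (NZ_meas.comp (measurable_id.add_const _)).sub NZ_meas

theorem Wc_int (T s c a b : ℝ) : IntervalIntegrable (fun t : ℝ => Wc T s (t + c)) volume a b := by
  unfold Wc
  apply IntervalIntegrable.sub _ (NZ_int c a b)
  have := NZ_int (c + 2 * Real.pi * s / Real.log T) a b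
  simpa only [add_assoc] using this

theorem Wc_nonneg {T s : ℝ} (t : ℝ) (hT : 1 ≤ T) (hs : 0 ≤ s) : 0 ≤ Wc T s t := by
  unfold Wc
  have h0 : 0 ≤ 2 * Real.pi * s / Real.log T := by
    have := Real.log_nonneg hT
    have := Real.pi_pos
    positivity
  have := NZ_monoR (show t ≤ t + 2 * Real.pi * s / Real.log T by linarith)
  simp only at this
  linarith

theorem Wc_mono {T s s' : ℝ} (t : ℝ) (hT : 1 ≤ T) (hs : s ≤ s') : Wc T s t ≤ Wc T s' t := by
  unfold Wc
  have h0 : t + 2 * Real.pi * s / Real.log T ≤ t + 2 * Real.pi * s' / Real.log T := by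
    have := Real.log_nonneg hT
    have := Real.pi_pos
    gcongr
  have := NZ_monoR h0
  simp only at this
  linarith

theorem Qs_cont (β : ℝ → ℝ) (N a : ℝ) : Continuous (Qs β N a) := by
  unfold Qs
  fun_prop

/-- CORE in terms of `Wc`, with a bounded shift -/
theorem core_Wc (hC : S_CORE) (C0 D : ℝ) (β : ℝ → ℝ) (hK : Pool.Agent.Y248.SW.Ker 4 C0 β) (hD : ∀ ξ, |β ξ| ≤ D) :
    ∃ τ0 : ℝ, 0 < τ0 ∧ τ0 ≤ 1 / 16 ∧ ∀ τ : ℝ, 0 < τ → τ ≤ τ0 → ∃ C1 : ℝ, 0 < C1 ∧
      ∀ s : ℝ, 1 ≤ Real.pi * τ * s → ∀ A : ℝ, ∀ᶠ T : ℝ in atTop, ∀ c : ℝ, |c| ≤ A →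
        ∫ t in (T + 2 * Real.log T)..(2 * T - 2 * Real.log T),
          |Wc T s (t + c) - s + Qs β (Real.pi * τ * s) (τ * Real.log T) (t + c + Real.pi * s / Real.log T)|
            ≤ C1 * T := by
  obtain ⟨τ0, h0, h1, h2⟩ := hC C0 D β hK hD
  refine ⟨τ0, h0, h1, fun τ ht ht' => ?_⟩
  obtain ⟨C1, hC1, h3⟩ := h2 τ ht ht'
  refine ⟨C1, hC1, fun s hs A => ?_⟩
  have hpi := Real.pi_pos
  have hs0 : 0 < s := by
    by_contra hcon
    push Not at hcon
    have : Real.pi * τ * s ≤ 0 := mul_nonpos_of_nonneg_of_nonpos (by positivity) hcon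
    linarith
  have hlog : Tendsto Real.log atTop atTop := Real.tendsto_log_atTop
  have hlin : ∀ᶠ T : ℝ in atTop, 4 * Real.log T ≤ T := by
    have := Real.isLittleO_log_id_atTop.bound (show (0:ℝ) < 1 / 4 by norm_num)
    filter_upwards [this, eventually_ge_atTop 1] with T hT hT1
    rw [Real.norm_of_nonneg (Real.log_nonneg hT1), id, Real.norm_of_nonneg (by linarith)] at hT
    linarith
  filter_upwards [h3 _ hs, eventually_ge_atTop 1, hlog.eventually_ge_atTop (|A| + Real.pi * s + 1),
    hlin] with T hT hT1 hT2 hT3 c hc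
  set L := Real.log T with hL
  have hA : A ≤ |A| := le_abs_self A
  have hL1 : 1 ≤ L := by linarith [abs_nonneg A, show 0 < Real.pi * s by positivity]
  set r := Real.pi * s / L with hr
  have hr0 : 0 < r := by positivity
  have hr1 : r ≤ Real.pi * s := by rw [hr]; exact div_le_self (by positivity) hL1
  have hc1 := abs_le.mp hc
  have e1 : Real.pi * τ * s / (τ * L) = r := by rw [hr]; field_simp
  have e2 : Real.pi * τ * s / (Real.pi * τ) = s := by field_simp
  rw [e1, e2] at hT
  set g : ℝ → ℝ := fun u => |Wn r u - s + Qs β (Real.pi * τ * s) (τ * L) u| with hg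
  have hgW : ∀ u : ℝ, 1 + r ≤ u → g u = |Wc T s (u + -r) - s + Qs β (Real.pi * τ * s) (τ * L) u| := by
    intro u hu
    rw [hg]
    simp only
    rw [Wc_eq hT1 hs0.le (by linarith : 1 ≤ u + -r)]
    congr 4
    rw [← hL, ← hr]; ring
  have hgi : IntervalIntegrable g volume (T + L) (2 * T - L) := by
    have h4 : IntervalIntegrable (fun u => |Wc T s (u + -r) - s + Qs β (Real.pi * τ * s) (τ * L) u|) volume
        (T + L) (2 * T - L) :=
      (((Wc_int T s (-r) _ _).sub intervalIntegrable_const).add (Qs_cont _ _ _).continuousOn.intervalIntegrable).abs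
    apply h4.congr
    intro u hu
    rw [Set.uIoc_of_le (by linarith)] at hu
    exact (hgW u (by linarith [hu.1, abs_nonneg A])).symm
  calc ∫ t in (T + 2 * L)..(2 * T - 2 * L), |Wc T s (t + c) - s + Qs β (Real.pi * τ * s) (τ * L) (t + c + r)|
      = ∫ t in (T + 2 * L)..(2 * T - 2 * L), g (t + (c + r)) := by
        apply intervalIntegral.integral_congr
        intro t ht
        rw [Set.uIcc_of_le (by linarith)] at ht
        have h5 := ht.1
        simp only
        rw [hgW _ (by linarith)]
        rw [show t + (c + r) + -r = t + c by ring, show t + (c + r) = t + c + r by ring]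
    _ = ∫ u in (T + 2 * L + (c + r))..(2 * T - 2 * L + (c + r)), g u := by
        rw [intervalIntegral.integral_comp_add_right]
    _ ≤ ∫ u in (T + L)..(2 * T - L), g u := by
        apply intervalIntegral.integral_mono_interval _ _ _ _ hgi
        · linarith
        · linarith
        · linarith
        · exact Eventually.of_forall fun u => abs_nonneg _
    _ ≤ C1 * T := hT

end

end Pool.Agent.V8H58.OR
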