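import Pool.Agent.V8Lead.OR.Stm
import Pool.Agent.Y274.SW.SM
import Pool.Agent.Y840.SW.MVB

set_option autoImplicit false

/-!
Project OR: the prime sum `Qs` as a Dirichlet polynomial, and its mean square.
-/

namespace Pool.Agent.V8H58.OR

open Filter Topology MeasureTheory Complex Set
open Pool.Agent.Y745.SW Pool.Agent.Y274.SW
open Pool.Agent.V8Lead.OR
open Pool.Agent.Y248.SW (Ker BN BN_cont)

noncomputable section

/-- the coefficients of `Qs` over all integers -/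
def qc (β : ℝ → ℝ) (N a : ℝ) (n : ℕ) : ℂ :=
  if n.Prime ∧ n ≤ ⌊Real.exp a⌋₊ then (up β N a n : ℂ) else 0

lemma cpow_re (n : ℕ) (hn : n ≠ 0) (t : ℝ) :
    ((n : ℂ) ^ (-(t : ℂ) * I)).re = Real.cos (t * Real.log n) := by
  have hn0 : (n : ℂ) ≠ 0 := by exact_mod_cast hn
  rw [Complex.cpow_def_of_ne_zero hn0, ← Complex.natCast_log]
  have : (Real.log n : ℂ) * (-(t : ℂ) * I) = ((-(t * Real.log n) : ℝ) : ℂ) * I := by
    push_cast
    ring
  rw [this, Complex.exp_ofReal_mul_I_re, Real.cos_neg]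

lemma Qs_eq (β : ℝ → ℝ) (N a t : ℝ) (X : ℕ) (hX : ⌊Real.exp a⌋₊ ≤ X) :
    Qs β N a t = (DD X (qc β N a) t).re := by
  unfold Qs DD Prm
  rw [Complex.re_sum, Finset.sum_filter]
  have h1 : ∑ n ∈ Finset.Icc 1 X, (qc β N a n * (n : ℂ) ^ (-(t : ℂ) * I)).re =
      ∑ n ∈ Finset.Icc 1 ⌊Real.exp a⌋₊, (qc β N a n * (n : ℂ) ^ (-(t : ℂ) * I)).re := by
    symm
    apply Finset.sum_subset (Finset.Icc_subset_Icc_right hX)
    intro n hn hn2
    rw [Finset.mem_Icc] at hn hn2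
    have : ¬ (n.Prime ∧ n ≤ ⌊Real.exp a⌋₊) := by
      rintro ⟨-, h⟩
      exact hn2 ⟨hn.1, h⟩
    simp [qc, this]
  rw [h1]
  refine Finset.sum_congr rfl fun n hn => ?_
  rw [Finset.mem_Icc] at hn
  by_cases hp : n.Prime
  · have : n.Prime ∧ n ≤ ⌊Real.exp a⌋₊ := ⟨hp, hn.2⟩
    rw [if_pos hp, qc, if_pos this, Complex.re_ofReal_mul, cpow_re n (by omega)]
  · have : ¬ (n.Prime ∧ n ≤ ⌊Real.exp a⌋₊) := fun h => hp h.1
    rw [if_neg hp, qc, if_neg this, zero_mul, Complex.zero_re]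

lemma qc_sum (β : ℝ → ℝ) (N a : ℝ) (X : ℕ) (hX : ⌊Real.exp a⌋₊ ≤ X) :
    ∑ n ∈ Finset.Icc 1 X, ‖qc β N a n‖ ^ 2 = ∑ p ∈ Prm ⌊Real.exp a⌋₊, up β N a p ^ 2 := by
  unfold Prm
  rw [Finset.sum_filter]
  have h1 : ∑ n ∈ Finset.Icc 1 X, ‖qc β N a n‖ ^ 2 =
      ∑ n ∈ Finset.Icc 1 ⌊Real.exp a⌋₊, ‖qc β N a n‖ ^ 2 := by
    symm
    apply Finset.sum_subset (Finset.Icc_subset_Icc_right hX)
    intro n hn hn2
    rw [Finset.mem_Icc] at hn hn2
    have : ¬ (n.Prime ∧ n ≤ ⌊Real.exp a⌋₊) := by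
      rintro ⟨-, h⟩
      exact hn2 ⟨hn.1, h⟩
    simp [qc, this]
  rw [h1]
  refine Finset.sum_congr rfl fun n hn => ?_
  rw [Finset.mem_Icc] at hn
  by_cases hp : n.Prime
  · have : n.Prime ∧ n ≤ ⌊Real.exp a⌋₊ := ⟨hp, hn.2⟩
    rw [if_pos hp, qc, if_pos this, Complex.norm_real, Real.norm_eq_abs, sq_abs]
  · have : ¬ (n.Prime ∧ n ≤ ⌊Real.exp a⌋₊) := fun h => hp h.1
    rw [if_neg hp, qc, if_neg this]
    simp

/-- `exp a` is below the length of the prime sums -/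
lemma floor_le_XT (τ : ℝ) (hτ : 0 < τ) (hτ1 : τ ≤ 1 / 16) (T : ℝ) (hT : 1 ≤ T) :
    ⌊Real.exp (τ * Real.log T)⌋₊ ≤ XT (4 * τ) T := by
  unfold XT
  apply Nat.floor_le_floor
  have hT0 : 0 < T := by linarith
  rw [Real.rpow_def_of_pos hT0]
  apply Real.exp_le_exp.2
  have hL : 0 ≤ Real.log T := Real.log_nonneg hT
  nlinarith

/-- mean value of a real part -/
lemma re_mv (X : ℕ) (T1 T2 : ℝ) (hT : T1 ≤ T2) (b : ℕ → ℂ) :
    ∫ t in T1..T2, ((DD X b t).re) ^ 2 ≤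
      (T2 - T1 + 8 * X * (1 + Real.log X)) * ∑ n ∈ Finset.Icc 1 X, ‖b n‖ ^ 2 := by
  refine le_trans ?_ (mv Pool.Agent.Y840.SW.t_MVB X T1 T2 hT b)
  apply intervalIntegral.integral_mono_on hT
  · exact Continuous.intervalIntegrable ((Complex.continuous_re.comp (DD_cont X b)).pow 2) _ _
  · exact Continuous.intervalIntegrable ((DD_cont X b).norm.pow 2) _ _
  · intro t _
    have h1 := Complex.abs_re_le_norm (DD X b t)
    rw [← sq_abs]
    exact pow_le_pow_left₀ (abs_nonneg _) h1 2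

theorem t_L2Q : S_VAR → S_LOWV → S_L2Q := by
  intro hV hL j C0 D β hK hD τ hτ hτ1
  have hβ0 : 0 < β 0 := by
    rw [hK.zero]
    positivity
  obtain ⟨c, C, hc, hC, hCN⟩ := hL β hK.cont hβ0
  refine ⟨2 * (C + 1), by positivity, ?_⟩
  intro N hN
  have hlog := Real.tendsto_log_atTop
  have h1 := (hV β hK.cont hK.supp N hN).comp (hlog.const_mul_atTop hτ)
  have h2 : ∀ᶠ T : ℝ in atTop, ∑ p ∈ Prm ⌊Real.exp (τ * Real.log T)⌋₊, up β N (τ * Real.log T) p ^ 2 ≤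
      VN β N + 1 := by
    have := (tendsto_order.1 h1).2 (VN β N + 1) (by linarith)
    filter_upwards [this] with T hT
    exact hT.le
  filter_upwards [h2, ev_X (4 * τ) (by positivity) (by linarith), eventually_ge_atTop (1 : ℝ)]
    with T h3 h4 h5
  have h6 := floor_le_XT τ hτ hτ1 T h5
  have h7 := (hCN N hN).2
  have hlN : 0 ≤ Real.log N := Real.log_nonneg hN
  calc ∫ t in T..(2 * T), Qs β N (τ * Real.log T) t ^ 2
      = ∫ t in T..(2 * T), ((DD (XT (4 * τ) T) (qc β N (τ * Real.log T)) t).re) ^ 2 := by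
        refine intervalIntegral.integral_congr fun t _ => ?_
        simp only [Qs_eq β N (τ * Real.log T) t _ h6]
    _ ≤ (2 * T - T + 8 * (XT (4 * τ) T) * (1 + Real.log (XT (4 * τ) T))) *
        ∑ n ∈ Finset.Icc 1 (XT (4 * τ) T), ‖qc β N (τ * Real.log T) n‖ ^ 2 :=
        re_mv _ _ _ (by linarith) _
    _ ≤ (2 * T) * (VN β N + 1) := by
        rw [qc_sum β N _ _ h6]
        have h8 : 0 ≤ ∑ p ∈ Prm ⌊Real.exp (τ * Real.log T)⌋₊, up β N (τ * Real.log T) p ^ 2 :=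
          Finset.sum_nonneg fun _ _ => sq_nonneg _
        exact mul_le_mul (by linarith) h3 h8 (by linarith)
    _ ≤ 2 * (C + 1) * (1 + Real.log N) * T := by
        have h9 : VN β N + 1 ≤ (C + 1) * (1 + Real.log N) := by nlinarith
        nlinarith

end

end Pool.Agent.V8H58.OR
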