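import Pool.Agent.V8H58.OR.Base
import Pool.Agent.Y240.SW.DF1
import Pool.Agent.Helper256.KM.Mertens

set_option autoImplicit false

/-!
Project OR: the prime sum of the explicit formula is `Qs` up to a negligible error.
-/

namespace Pool.Agent.V8H58.OR

open Filter Topology MeasureTheory Complex Set
open Pool.Agent.Y745.SW Pool.Agent.Y274.SW
open Pool.Agent.V8Lead.OR
open Pool.Agent.Y248.SW (Ker BN BN_cont)

noncomputable section

/-! ### the Gaussian average -/

/-- the Gaussian density -/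
def ga (x : ℝ) : ℝ := 1 / Real.sqrt (2 * Real.pi) * Real.exp (-x ^ 2 / 2)

lemma ga_nonneg (x : ℝ) : 0 ≤ ga x := by unfold ga; positivity

lemma ga_eq (x : ℝ) : ga x = 1 / Real.sqrt (2 * Real.pi) * Real.exp (-(1 / 2) * x ^ 2) := by
  unfold ga
  congr 2
  ring

lemma ga_int : Integrable ga := by
  have h := (integrable_exp_neg_mul_sq (by norm_num : (0 : ℝ) < 1 / 2)).const_mul
    (1 / Real.sqrt (2 * Real.pi))
  exact h.congr (Eventually.of_forall fun x => (ga_eq x).symm)

lemma ga_one : ∫ x : ℝ, ga x = 1 := by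
  simp_rw [ga_eq]
  rw [integral_const_mul, integral_gaussian]
  rw [show Real.pi / (1 / 2) = 2 * Real.pi by ring]
  have : Real.sqrt (2 * Real.pi) ≠ 0 := by positivity
  field_simp

lemma ga_int2 : Integrable (fun x : ℝ => x ^ 2 * ga x) := by
  have h := (integrable_rpow_mul_exp_neg_mul_sq (by norm_num : (0 : ℝ) < 1 / 2)
    (by norm_num : (-1 : ℝ) < (2 : ℕ))).const_mul (1 / Real.sqrt (2 * Real.pi))
  refine h.congr (Eventually.of_forall fun x => ?_)
  simp only [Real.rpow_natCast, ga_eq]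
  ring

/-- the second moment -/
def c2 : ℝ := ∫ x : ℝ, x ^ 2 * ga x

lemma c2_nonneg : 0 ≤ c2 := integral_nonneg fun x => mul_nonneg (sq_nonneg x) (ga_nonneg x)

lemma avg (g : ℝ → ℝ) (hg : Measurable g) (b δ κ : ℝ)
    (h : ∀ v, |g v - b| ≤ δ + κ * v ^ 2) : |(∫ v, g v * ga v) - b| ≤ δ + κ * c2 := by
  have hi : Integrable (fun v : ℝ => (δ + κ * v ^ 2) * ga v) := by
    have := (ga_int.const_mul δ).add (ga_int2.const_mul κ)
    refine this.congr (Eventually.of_forall fun x => ?_)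
    simp only [Pi.add_apply]
    ring
  have hgm : Measurable ga := by unfold ga; fun_prop
  have hd : Integrable (fun v : ℝ => (g v - b) * ga v) := by
    refine hi.mono' ((hg.sub measurable_const).mul hgm).aestronglyMeasurable
      (Eventually.of_forall fun v => ?_)
    rw [Real.norm_eq_abs, abs_mul, abs_of_nonneg (ga_nonneg v)]
    exact mul_le_mul_of_nonneg_right (h v) (ga_nonneg v)
  have h1 : (∫ v, g v * ga v) - b = ∫ v, (g v - b) * ga v := by
    have h2 : ∫ v, g v * ga v = ∫ v, ((g v - b) * ga v + b * ga v) := by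
      refine integral_congr_ae (Eventually.of_forall fun v => ?_)
      simp only
      ring
    rw [h2, integral_add hd (ga_int.const_mul b), integral_const_mul, ga_one]
    ring
  rw [h1]
  have h3 : |∫ v, (g v - b) * ga v| ≤ ∫ v, (δ + κ * v ^ 2) * ga v := by
    rw [← Real.norm_eq_abs]
    refine norm_integral_le_of_norm_le hi (Eventually.of_forall fun v => ?_)
    rw [Real.norm_eq_abs, abs_mul, abs_of_nonneg (ga_nonneg v)]
    exact mul_le_mul_of_nonneg_right (h v) (ga_nonneg v)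
  have h4 : ∫ v, (δ + κ * v ^ 2) * ga v = δ + κ * c2 := by
    have h5 : ∫ v, (δ + κ * v ^ 2) * ga v = ∫ v, (δ * ga v + κ * (v ^ 2 * ga v)) := by
      refine integral_congr_ae (Eventually.of_forall fun v => ?_)
      simp only
      ring
    rw [h5, integral_add (ga_int.const_mul δ) (ga_int2.const_mul κ), integral_const_mul,
      integral_const_mul, ga_one, mul_one]
    rfl
  rw [← h4]
  exact h3

/-- `Gp` as a Gaussian average -/
lemma Gp_avg (B : ℝ → ℝ) (hs : ∀ ξ, 1 ≤ |ξ| → B ξ = 0) (a y : ℝ) (ha : 0 < a) :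
    a * Gp B a 0 y = ∫ v : ℝ, (if 0 ≤ v + y then B ((v + y) / a) else 0) * ga v := by
  set G : ℝ → ℝ := fun v => (if 0 ≤ v + y then B ((v + y) / a) else 0) * ga v with hG
  have h1 : ∫ ξ : ℝ, G (a * ξ - y) = a⁻¹ * ∫ v, G v := by
    have h2 := Measure.integral_comp_mul_left (fun x => G (x - y)) a
    rw [h2, integral_sub_right_eq_self G y, abs_of_pos (inv_pos.2 ha), smul_eq_mul]
  have h3 : ∀ ξ : ℝ, G (a * ξ - y) = 1 / Real.sqrt (2 * Real.pi) *
      (if 0 ≤ 0 + ξ * a then B ξ * Real.exp (-(0 + ξ * a - y) ^ 2 / 2) else 0) := by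
    intro ξ
    have e1 : a * ξ - y + y = 0 + ξ * a := by ring
    have e2 : (0 + ξ * a) / a = ξ := by field_simp; ring
    have e3 : a * ξ - y = 0 + ξ * a - y := by ring
    simp only [hG, e1, e2, ga]
    rw [e3]
    split_ifs
    · ring
    · ring
  have h4 : ∫ ξ in (-1:ℝ)..1,
      (if 0 ≤ 0 + ξ * a then B ξ * Real.exp (-(0 + ξ * a - y) ^ 2 / 2) else 0) =
      ∫ ξ : ℝ, (if 0 ≤ 0 + ξ * a then B ξ * Real.exp (-(0 + ξ * a - y) ^ 2 / 2) else 0) := by
    rw [intervalIntegral.integral_of_le (by norm_num)]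
    apply setIntegral_eq_integral_of_forall_compl_eq_zero
    intro ξ hξ
    have : 1 ≤ |ξ| := by
      rw [mem_Ioc, not_and_or, not_lt, not_le] at hξ
      rcases hξ with h | h
      · rw [abs_of_nonpos (by linarith)]; linarith
      · rw [abs_of_nonneg (by linarith)]; linarith
    rw [hs ξ this]
    simp
  have h5 : Gp B a 0 y = ∫ ξ : ℝ, G (a * ξ - y) := by
    unfold Gp
    rw [h4, ← integral_const_mul]
    exact integral_congr_ae (Eventually.of_forall fun ξ => (h3 ξ).symm)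
  rw [h5, h1]
  field_simp

lemma Gp_near (B : ℝ → ℝ) (hc : Continuous B) (hs : ∀ ξ, 1 ≤ |ξ| → B ξ = 0) (K : ℝ)
    (hK : ∀ ξ, |B ξ| ≤ K) (ε : ℝ) (hε : 0 < ε) :
    ∃ M A : ℝ, 0 < M ∧ 1 ≤ A ∧ ∀ a : ℝ, A ≤ a → ∀ y : ℝ, M ≤ y →
      |a * Gp B a 0 y - B (y / a)| ≤ ε := by
  have hK0 : 0 ≤ K := (abs_nonneg _).trans (hK 0)
  have hc2 := c2_nonneg
  have hcs : HasCompactSupport B := by
    apply HasCompactSupport.intro (isCompact_Icc (a := (-1 : ℝ)) (b := 1))
    intro ξ hξ
    have : 1 ≤ |ξ| := by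
      rw [mem_Icc, not_and_or, not_le, not_le] at hξ
      rcases hξ with h | h
      · rw [abs_of_nonpos (by linarith)]; linarith
      · rw [abs_of_nonneg (by linarith)]; linarith
    exact hs ξ this
  have huc : UniformContinuous B := hcs.uniformContinuous_of_continuous hc
  obtain ⟨δ, hδ, hB⟩ := Metric.uniformContinuous_iff.1 huc (ε / 2) (by positivity)
  set M : ℝ := 1 + 4 * K * c2 / ε with hM
  have hM1 : 1 ≤ M := by
    rw [hM]
    have : 0 ≤ 4 * K * c2 / ε := by positivity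
    linarith
  refine ⟨M, 1 + M / δ, by linarith, by
    have : 0 ≤ M / δ := by positivity
    linarith, ?_⟩
  intro a ha y hy
  have hMδ : 0 ≤ M / δ := by positivity
  have ha0 : 0 < a := by linarith
  have haM : M / a < δ := by
    rw [div_lt_iff₀ ha0]
    have : M / δ < a := by linarith
    rw [div_lt_iff₀ hδ] at this
    linarith
  rw [Gp_avg B hs a y ha0]
  have hm : Measurable (fun v : ℝ => if 0 ≤ v + y then B ((v + y) / a) else 0) := by
    apply Measurable.ite
    · exact measurableSet_le measurable_const (by fun_prop)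
    · exact hc.measurable.comp (by fun_prop)
    · exact measurable_const
  have h1 := avg (fun v : ℝ => if 0 ≤ v + y then B ((v + y) / a) else 0) hm (B (y / a)) (ε / 2)
    (2 * K / M ^ 2) ?_
  · refine h1.trans ?_
    have h2 : 2 * K / M ^ 2 * c2 ≤ ε / 2 := by
      have h3 : 4 * K * c2 / ε ≤ M ^ 2 := by nlinarith
      rw [div_le_iff₀ hε] at h3
      rw [div_mul_eq_mul_div, div_le_iff₀ (by positivity)]
      nlinarith
    linarith
  · intro v
    have hκ : 0 ≤ 2 * K / M ^ 2 * v ^ 2 := by positivity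
    rcases le_or_gt |v| M with hv | hv
    · have h2 : 0 ≤ v + y := by
        have := (abs_le.1 hv).1
        linarith
      simp only [if_pos h2]
      have h3 : dist ((v + y) / a) (y / a) < δ := by
        rw [Real.dist_eq]
        have : (v + y) / a - y / a = v / a := by ring
        rw [this, abs_div, abs_of_pos ha0]
        exact lt_of_le_of_lt (div_le_div_of_nonneg_right hv ha0.le) haM
      have h4 := hB h3
      rw [Real.dist_eq] at h4
      linarith
    · have h2 : |(if 0 ≤ v + y then B ((v + y) / a) else 0) - B (y / a)| ≤ 2 * K := by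
        refine (abs_sub _ _).trans ?_
        have h3 := hK (y / a)
        have h4 : |if 0 ≤ v + y then B ((v + y) / a) else 0| ≤ K := by
          split_ifs
          · exact hK _
          · simpa using hK0
        linarith
      refine h2.trans ?_
      have h3 : M ^ 2 ≤ v ^ 2 := by
        rw [← sq_abs v]
        exact pow_le_pow_left₀ (by linarith) hv.le 2
      have h4 : 2 * K ≤ 2 * K / M ^ 2 * v ^ 2 := by
        rw [div_mul_eq_mul_div, le_div_iff₀ (by positivity)]
        exact mul_le_mul_of_nonneg_left h3 (by linarith)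
      linarith

lemma Gp_sq_le (B : ℝ → ℝ) (K a u y : ℝ) (hB : ∀ ξ, |B ξ| ≤ K) (ha : 0 < a) :
    Gp B a u y ^ 2 ≤ K ^ 2 / a ^ 2 := by
  refine (Gp_sq B K a u y hB ha).trans ?_
  have h1 := hp_int a u y ha
  have hs : 0 < Real.sqrt (2 * Real.pi) := by positivity
  calc K ^ 2 / (a * Real.sqrt (2 * Real.pi)) * ∫ ξ in (-1:ℝ)..1, hp a u y ξ
      ≤ K ^ 2 / (a * Real.sqrt (2 * Real.pi)) * (Real.sqrt (2 * Real.pi) / a) :=
        mul_le_mul_of_nonneg_left h1 (by positivity)
    _ = K ^ 2 / a ^ 2 := by field_simp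

/-! ### sums over prime powers -/

lemma sumL (Y : ℝ) (hY : 0 ≤ Y) (X : ℕ) :
    ∑ n ∈ Finset.Icc 1 X, (if Real.log n ≤ Y then ArithmeticFunction.vonMangoldt n ^ 2 / (n : ℝ)
      else 0) ≤ Y * (Y + 6) := by
  have hN1 : 1 ≤ ⌊Real.exp Y⌋₊ := Nat.one_le_floor_iff _ |>.2 (Real.one_le_exp hY)
  have hnn : ∀ n : ℕ, 0 ≤ ArithmeticFunction.vonMangoldt n / (n:ℝ) := fun n =>
    div_nonneg ArithmeticFunction.vonMangoldt_nonneg (Nat.cast_nonneg n)
  rw [← Finset.sum_filter]
  calc ∑ n ∈ (Finset.Icc 1 X).filter (fun n : ℕ => Real.log n ≤ Y),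
        ArithmeticFunction.vonMangoldt n ^ 2 / (n : ℝ)
      ≤ ∑ n ∈ (Finset.Icc 1 X).filter (fun n : ℕ => Real.log n ≤ Y),
        Y * (ArithmeticFunction.vonMangoldt n / (n : ℝ)) := by
        refine Finset.sum_le_sum fun n hn => ?_
        rw [Finset.mem_filter, Finset.mem_Icc] at hn
        have h1 : ArithmeticFunction.vonMangoldt n ≤ Y :=
          ArithmeticFunction.vonMangoldt_le_log.trans hn.2
        rw [sq, mul_div_assoc]
        exact mul_le_mul_of_nonneg_right h1 (hnn n)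
    _ ≤ ∑ n ∈ Finset.Icc 1 ⌊Real.exp Y⌋₊, Y * (ArithmeticFunction.vonMangoldt n / (n : ℝ)) := by
        refine Finset.sum_le_sum_of_subset_of_nonneg ?_ fun n _ _ => mul_nonneg hY (hnn n)
        intro n hn
        rw [Finset.mem_filter, Finset.mem_Icc] at hn
        rw [Finset.mem_Icc]
        refine ⟨hn.1.1, Nat.le_floor ?_⟩
        rw [← Real.exp_log (show (0:ℝ) < n by exact_mod_cast hn.1.1)]
        exact Real.exp_le_exp.2 hn.2
    _ = Y * ∑ n ∈ Finset.Icc 1 ⌊Real.exp Y⌋₊, ArithmeticFunction.vonMangoldt n / (n : ℝ) := by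
        rw [Finset.mul_sum]
    _ ≤ Y * (Real.log ⌊Real.exp Y⌋₊ + 6) :=
        mul_le_mul_of_nonneg_left (Pool.Agent.Y240.SW.mertens_upper _ hN1) hY
    _ ≤ Y * (Y + 6) := by
        refine mul_le_mul_of_nonneg_left ?_ hY
        have h1 : (⌊Real.exp Y⌋₊ : ℝ) ≤ Real.exp Y := Nat.floor_le (Real.exp_pos _).le
        have h2 : Real.log ⌊Real.exp Y⌋₊ ≤ Y := by
          calc Real.log ⌊Real.exp Y⌋₊ ≤ Real.log (Real.exp Y) :=
                Real.log_le_log (by exact_mod_cast hN1) h1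
            _ = Y := Real.log_exp Y
        linarith

open Classical in
/-- the prime powers that are not primes -/
lemma sumP : ∃ C : ℝ, 0 ≤ C ∧ ∀ X : ℕ, 1 ≤ X →
    ∑ n ∈ Finset.Icc 1 X, (if n.Prime then 0 else ArithmeticFunction.vonMangoldt n ^ 2 / (n : ℝ)) ≤
      Real.log X * C := by
  obtain ⟨C, hC⟩ := Pool.Agent.Helper256.KM.Mert.mertens_log
  have hC0 : 0 ≤ C := (abs_nonneg _).trans (hC 1 le_rfl)
  refine ⟨C + 6, by linarith, fun X hX => ?_⟩
  have hlX : 0 ≤ Real.log X := Real.log_nonneg (by exact_mod_cast hX)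
  have hnn : ∀ n : ℕ, 0 ≤ ArithmeticFunction.vonMangoldt n / (n:ℝ) := fun n =>
    div_nonneg ArithmeticFunction.vonMangoldt_nonneg (Nat.cast_nonneg n)
  have h1 : ∑ n ∈ Finset.Icc 1 X, (if n.Prime then 0 else
      ArithmeticFunction.vonMangoldt n / (n : ℝ)) =
      ∑ n ∈ Finset.Icc 1 X, ArithmeticFunction.vonMangoldt n / (n : ℝ) -
      ∑ p ∈ (Finset.Icc 1 X).filter Nat.Prime, Real.log p / p := by
    rw [Finset.sum_filter, ← Finset.sum_sub_distrib]
    refine Finset.sum_congr rfl fun n _ => ?_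
    split_ifs with hp
    · rw [ArithmeticFunction.vonMangoldt_apply_prime hp]
      ring
    · ring
  have h2 := Pool.Agent.Y240.SW.mertens_upper X hX
  have h3 := (abs_le.1 (hC X hX)).1
  calc ∑ n ∈ Finset.Icc 1 X, (if n.Prime then 0 else
        ArithmeticFunction.vonMangoldt n ^ 2 / (n : ℝ))
      ≤ ∑ n ∈ Finset.Icc 1 X, Real.log X * (if n.Prime then 0 else
        ArithmeticFunction.vonMangoldt n / (n : ℝ)) := by
        refine Finset.sum_le_sum fun n hn => ?_
        rw [Finset.mem_Icc] at hn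
        split_ifs
        · simp
        · rw [sq, mul_div_assoc]
          refine mul_le_mul_of_nonneg_right ?_ (hnn n)
          refine ArithmeticFunction.vonMangoldt_le_log.trans (Real.log_le_log ?_ ?_)
          · exact_mod_cast hn.1
          · exact_mod_cast hn.2
    _ = Real.log X * ∑ n ∈ Finset.Icc 1 X, (if n.Prime then 0 else
        ArithmeticFunction.vonMangoldt n / (n : ℝ)) := by rw [Finset.mul_sum]
    _ ≤ Real.log X * (C + 6) := by
        refine mul_le_mul_of_nonneg_left ?_ hlX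
        rw [h1]
        linarith

/-! ### the coefficients of the difference -/

lemma BN_eq (β : ℝ → ℝ) (N ξ : ℝ) : BN β N ξ * ξ = 2 * β ξ * Real.sin (N * ξ) := by
  unfold BN
  by_cases hξ : ξ = 0
  · rw [hξ]
    simp
  · have h1 : ∫ y in (-N)..N, Real.cos (ξ * y) = 2 * Real.sin (N * ξ) / ξ := by
      rw [intervalIntegral.integral_comp_mul_left (fun x => Real.cos x) hξ, integral_cos,
        smul_eq_mul]
      rw [show ξ * -N = -(N * ξ) by ring, show ξ * N = N * ξ by ring, Real.sin_neg]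
      field_simp
      ring
    rw [h1]
    field_simp

lemma BN_abs (β : ℝ → ℝ) (D N : ℝ) (hN : 0 ≤ N) (hD : ∀ ξ, |β ξ| ≤ D) (ξ : ℝ) :
    |BN β N ξ| ≤ D * (2 * N) := by
  unfold BN
  rw [abs_mul]
  have h1 : |∫ y in (-N)..N, Real.cos (ξ * y)| ≤ 2 * N := by
    have h2 := intervalIntegral.norm_integral_le_of_norm_le_const (a := -N) (b := N) (C := 1)
      (f := fun y => Real.cos (ξ * y)) fun y _ => by
        rw [Real.norm_eq_abs]
        exact Real.abs_cos_le_one _
    rw [Real.norm_eq_abs] at h2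
    refine h2.trans ?_
    rw [one_mul, show N - -N = 2 * N by ring, abs_of_nonneg (by linarith)]
  exact mul_le_mul (hD ξ) h1 (abs_nonneg _) ((abs_nonneg _).trans (hD 0))

lemma BN_supp (β : ℝ → ℝ) (N : ℝ) (hs : ∀ ξ, 1 ≤ |ξ| → β ξ = 0) : ∀ ξ, 1 ≤ |ξ| → BN β N ξ = 0 := by
  intro ξ h
  unfold BN
  rw [hs ξ h, zero_mul]

/-- the coefficients of the difference -/
def dc (β : ℝ → ℝ) (N a : ℝ) (n : ℕ) : ℂ :=
  2 * dp (fun n => ((ArithmeticFunction.vonMangoldt n : ℝ) : ℂ)) (BN β N) a 0 n - qc β N a n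

lemma dc_prime (β : ℝ → ℝ) (hs : ∀ ξ, 1 ≤ |ξ| → β ξ = 0) (N a : ℝ) (ha : 0 < a) (n : ℕ)
    (hn : n.Prime) :
    dc β N a n = ((2 * (ArithmeticFunction.vonMangoldt n * (Real.sqrt n)⁻¹ *
      (Gp (BN β N) a 0 (Real.log n) - BN β N (Real.log n / a) / a)) : ℝ) : ℂ) := by
  have hn1 : (1 : ℝ) < n := by exact_mod_cast hn.one_lt
  have hn0 : (0 : ℝ) < n := by linarith
  have hlog : 0 < Real.log n := Real.log_pos hn1
  have hsq : 0 < Real.sqrt n := Real.sqrt_pos.2 hn0
  have hv : ArithmeticFunction.vonMangoldt n = Real.log n :=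
    ArithmeticFunction.vonMangoldt_apply_prime hn
  have hq : qc β N a n = ((2 * (Real.log n * (Real.sqrt n)⁻¹ *
      (BN β N (Real.log n / a) / a)) : ℝ) : ℂ) := by
    unfold qc
    have hB := BN_eq β N (Real.log n / a)
    by_cases hle : n ≤ ⌊Real.exp a⌋₊
    · rw [if_pos ⟨hn, hle⟩]
      congr 1
      unfold up
      have e1 : N * (Real.log n / a) = N * Real.log n / a := by ring
      rw [e1] at hB
      have e2 : 2 * (Real.log n * (Real.sqrt n)⁻¹ * (BN β N (Real.log n / a) / a)) =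
          2 * (Real.sqrt n)⁻¹ * (BN β N (Real.log n / a) * (Real.log n / a)) := by ring
      rw [e2, hB]
      field_simp
      ring
    · rw [if_neg fun h => hle h.2]
      have h1 : Real.exp a < n := by
        by_contra h
        exact hle (Nat.le_floor (not_lt.1 h))
      have h2 : a < Real.log n := by
        rw [Real.lt_log_iff_exp_lt hn0]
        exact h1
      have h3 : 1 ≤ |Real.log n / a| := by
        rw [abs_of_pos (by positivity), le_div_iff₀ ha]
        linarith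
      rw [BN_supp β N hs _ h3]
      simp
  simp only [dc, dp, hq, hv]
  push_cast
  ring

lemma dc_not_prime (β : ℝ → ℝ) (N a : ℝ) (n : ℕ) (hn : ¬ n.Prime) :
    dc β N a n = ((2 * (ArithmeticFunction.vonMangoldt n * (Real.sqrt n)⁻¹ *
      Gp (BN β N) a 0 (Real.log n)) : ℝ) : ℂ) := by
  have hq : qc β N a n = 0 := by
    unfold qc
    rw [if_neg fun h => hn h.1]
  unfold dc dp
  rw [hq]
  push_cast
  ring

lemma sq_form (v s w : ℝ) (n : ℕ) (hs : s = (Real.sqrt n)⁻¹) :
    ‖((2 * (v * s * w) : ℝ) : ℂ)‖ ^ 2 = v ^ 2 / n * (4 * w ^ 2) := by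
  rw [Complex.norm_real, Real.norm_eq_abs, sq_abs, hs]
  have h1 : ((Real.sqrt n)⁻¹) ^ 2 = (n : ℝ)⁻¹ := by
    rw [inv_pow, Real.sq_sqrt (Nat.cast_nonneg n)]
  calc (2 * (v * (Real.sqrt n)⁻¹ * w)) ^ 2 = v ^ 2 * ((Real.sqrt n)⁻¹) ^ 2 * (4 * w ^ 2) := by ring
    _ = v ^ 2 / n * (4 * w ^ 2) := by rw [h1, div_eq_mul_inv]

open Classical in
lemma dc_bound (β : ℝ → ℝ) (hs : ∀ ξ, 1 ≤ |ξ| → β ξ = 0) (N a K M ε : ℝ) (ha : 0 < a)
    (hK : ∀ ξ, |BN β N ξ| ≤ K)
    (hn : ∀ y : ℝ, M ≤ y → |a * Gp (BN β N) a 0 y - BN β N (y / a)| ≤ ε) (n : ℕ) :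
    ‖dc β N a n‖ ^ 2 ≤ 16 * K ^ 2 / a ^ 2 *
        (if Real.log n ≤ M then ArithmeticFunction.vonMangoldt n ^ 2 / (n : ℝ) else 0) +
      4 * ε ^ 2 / a ^ 2 * (ArithmeticFunction.vonMangoldt n ^ 2 / (n : ℝ)) +
      4 * K ^ 2 / a ^ 2 *
        (if n.Prime then 0 else ArithmeticFunction.vonMangoldt n ^ 2 / (n : ℝ)) := by
  have hK0 : 0 ≤ K := (abs_nonneg _).trans (hK 0)
  have hV : 0 ≤ ArithmeticFunction.vonMangoldt n ^ 2 / (n : ℝ) := by positivity
  have hG := Gp_sq_le (BN β N) K a 0 (Real.log n) hK ha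
  have p1 : 0 ≤ 16 * K ^ 2 / a ^ 2 *
        (if Real.log n ≤ M then ArithmeticFunction.vonMangoldt n ^ 2 / (n : ℝ) else 0) := by
    split_ifs
    · positivity
    · simp
  have p2 : 0 ≤ 4 * ε ^ 2 / a ^ 2 * (ArithmeticFunction.vonMangoldt n ^ 2 / (n : ℝ)) := by
    positivity
  by_cases hp : n.Prime
  · rw [dc_prime β hs N a ha n hp, sq_form _ _ _ n rfl, if_pos hp, mul_zero, add_zero]
    rcases le_or_gt (Real.log n) M with hM | hM
    · rw [if_pos hM]
      have h1 : (Gp (BN β N) a 0 (Real.log n) - BN β N (Real.log n / a) / a) ^ 2 ≤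
          4 * K ^ 2 / a ^ 2 := by
        have h2 : (BN β N (Real.log n / a) / a) ^ 2 ≤ K ^ 2 / a ^ 2 := by
          rw [div_pow]
          refine div_le_div_of_nonneg_right ?_ (by positivity)
          rw [← sq_abs]
          exact pow_le_pow_left₀ (abs_nonneg _) (hK _) 2
        have h3 : (Gp (BN β N) a 0 (Real.log n) - BN β N (Real.log n / a) / a) ^ 2 ≤
            2 * Gp (BN β N) a 0 (Real.log n) ^ 2 + 2 * (BN β N (Real.log n / a) / a) ^ 2 := by
          nlinarith [sq_nonneg (Gp (BN β N) a 0 (Real.log n) + BN β N (Real.log n / a) / a)]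
        have h4 : 4 * K ^ 2 / a ^ 2 = 2 * (K ^ 2 / a ^ 2) + 2 * (K ^ 2 / a ^ 2) := by ring
        rw [h4]
        linarith
      calc ArithmeticFunction.vonMangoldt n ^ 2 / (n : ℝ) *
            (4 * (Gp (BN β N) a 0 (Real.log n) - BN β N (Real.log n / a) / a) ^ 2)
          ≤ ArithmeticFunction.vonMangoldt n ^ 2 / (n : ℝ) * (4 * (4 * K ^ 2 / a ^ 2)) :=
            mul_le_mul_of_nonneg_left (by linarith) hV
        _ = 16 * K ^ 2 / a ^ 2 * (ArithmeticFunction.vonMangoldt n ^ 2 / (n : ℝ)) := by ring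
        _ ≤ _ := by linarith
    · rw [if_neg (not_le.2 hM), mul_zero, zero_add]
      have h1 := hn (Real.log n) hM.le
      have h2 : (Gp (BN β N) a 0 (Real.log n) - BN β N (Real.log n / a) / a) ^ 2 ≤
          ε ^ 2 / a ^ 2 := by
        have h3 : Gp (BN β N) a 0 (Real.log n) - BN β N (Real.log n / a) / a =
            (a * Gp (BN β N) a 0 (Real.log n) - BN β N (Real.log n / a)) / a := by
          field_simp
        rw [h3, div_pow]
        refine div_le_div_of_nonneg_right ?_ (by positivity)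
        rw [← sq_abs]
        exact pow_le_pow_left₀ (abs_nonneg _) h1 2
      calc ArithmeticFunction.vonMangoldt n ^ 2 / (n : ℝ) *
            (4 * (Gp (BN β N) a 0 (Real.log n) - BN β N (Real.log n / a) / a) ^ 2)
          ≤ ArithmeticFunction.vonMangoldt n ^ 2 / (n : ℝ) * (4 * (ε ^ 2 / a ^ 2)) :=
            mul_le_mul_of_nonneg_left (by linarith) hV
        _ = 4 * ε ^ 2 / a ^ 2 * (ArithmeticFunction.vonMangoldt n ^ 2 / (n : ℝ)) := by ring
  · rw [dc_not_prime β N a n hp, sq_form _ _ _ n rfl, if_neg hp]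
    calc ArithmeticFunction.vonMangoldt n ^ 2 / (n : ℝ) *
          (4 * Gp (BN β N) a 0 (Real.log n) ^ 2)
        ≤ ArithmeticFunction.vonMangoldt n ^ 2 / (n : ℝ) * (4 * (K ^ 2 / a ^ 2)) :=
          mul_le_mul_of_nonneg_left (by linarith) hV
      _ = 4 * K ^ 2 / a ^ 2 * (ArithmeticFunction.vonMangoldt n ^ 2 / (n : ℝ)) := by ring
      _ ≤ _ := by linarith

theorem t_DPQ : S_DPQ := by
  intro j C0 D β hKer hD τ hτ hτ1 N η hN hη
  have hβs := hKer.supp
  set K : ℝ := D * (2 * N) with hKdef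
  have hK : ∀ ξ, |BN β N ξ| ≤ K := BN_abs β D N (by linarith) hD
  have hK0 : 0 ≤ K := (abs_nonneg _).trans (hK 0)
  set ε : ℝ := τ * Real.sqrt (η / 168) with hε
  have hε0 : 0 < ε := by positivity
  have hεsq : ε ^ 2 = τ ^ 2 * (η / 168) := by
    rw [hε, mul_pow, Real.sq_sqrt (by positivity)]
  obtain ⟨M, A, hM, hA, hnear⟩ := Gp_near (BN β N) (BN_cont hKer.cont N) (BN_supp β N hβs) K hK
    ε hε0
  obtain ⟨C, hC0, hC⟩ := sumP
  have hlog := Real.tendsto_log_atTop
  have ha := hlog.const_mul_atTop hτ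
  have hinv : Tendsto (fun T : ℝ => 16 * K ^ 2 * (M * (M + 6)) / (τ * Real.log T) ^ 2) atTop (𝓝 0) :=
    Tendsto.const_div_atTop ((tendsto_pow_atTop (by norm_num : (2 : ℕ) ≠ 0)).comp ha) _
  have hinv2 : Tendsto (fun T : ℝ => 4 * K ^ 2 * C / τ / (τ * Real.log T)) atTop (𝓝 0) :=
    Tendsto.const_div_atTop ha _
  have e1 := (tendsto_order.1 hinv).2 (η / 6) (by positivity)
  have e2 := (tendsto_order.1 hinv2).2 (η / 6) (by positivity)
  filter_upwards [e1, e2, ev_X (4 * τ) (by positivity) (by linarith), eventually_ge_atTop (1 : ℝ),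
    ha.eventually_ge_atTop A, hlog.eventually_ge_atTop 1,
    (Real.isLittleO_log_id_atTop.bound (by norm_num : (0 : ℝ) < 1 / 2))]
    with T h1 h2 h3 h4 h5 h5' h6
  set L := Real.log T with hL
  have hT : 0 < T := by linarith
  have hL0 : 0 < L := by linarith
  have h6' : 2 * L ≤ T := by
    have : |L| ≤ 1 / 2 * |T| := h6
    rw [abs_of_pos hL0, abs_of_pos hT] at this
    linarith
  set a := τ * L with ha'
  have ha1 : 1 ≤ a := by linarith
  have ha0 : 0 < a := by linarith
  set X := XT (4 * τ) T with hX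
  have hfX : ⌊Real.exp a⌋₊ ≤ X := floor_le_XT τ hτ hτ1 T h4
  have hX1 : 1 ≤ X := by
    refine le_trans ?_ hfX
    exact Nat.one_le_floor_iff _ |>.2 (Real.one_le_exp ha0.le)
  have hXT : (X : ℝ) ≤ T := by
    have h7 : (X : ℝ) ≤ T ^ (1 - 4 * τ / 4) := Nat.floor_le (by positivity)
    refine h7.trans ?_
    calc T ^ (1 - 4 * τ / 4) ≤ T ^ (1 : ℝ) := Real.rpow_le_rpow_of_exponent_le h4 (by linarith)
      _ = T := Real.rpow_one T
  have hlX : Real.log X ≤ L := Real.log_le_log (by exact_mod_cast hX1) hXT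
  have hlX0 : 0 ≤ Real.log X := Real.log_nonneg (by exact_mod_cast hX1)
  have hLa : L = a / τ := by
    rw [ha']
    field_simp
  -- the sum of the squares
  have hS : ∑ n ∈ Finset.Icc 1 X, ‖dc β N a n‖ ^ 2 ≤ η / 2 := by
    have s0 := Finset.sum_le_sum fun n (_ : n ∈ Finset.Icc 1 X) =>
      dc_bound β hβs N a K M ε ha0 hK (hnear a h5) n
    rw [Finset.sum_add_distrib, Finset.sum_add_distrib, ← Finset.mul_sum, ← Finset.mul_sum,
      ← Finset.mul_sum] at s0
    have s1 := sumL M hM.le X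
    have s2 : ∑ n ∈ Finset.Icc 1 X, ArithmeticFunction.vonMangoldt n ^ 2 / (n : ℝ) ≤ L * (L + 6) := by
      have := sumL L hL0.le X
      refine le_trans (le_of_eq ?_) this
      refine Finset.sum_congr rfl fun n hn => ?_
      rw [Finset.mem_Icc] at hn
      rw [if_pos]
      refine le_trans (Real.log_le_log ?_ ?_) hlX
      · exact_mod_cast hn.1
      · exact_mod_cast hn.2
    have s3 := hC X hX1
    have t1 : 16 * K ^ 2 / a ^ 2 * ∑ n ∈ Finset.Icc 1 X, (if Real.log n ≤ M then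
        ArithmeticFunction.vonMangoldt n ^ 2 / (n : ℝ) else 0) ≤ η / 6 := by
      refine le_trans (mul_le_mul_of_nonneg_left s1 (by positivity)) (le_trans (le_of_eq ?_) h1.le)
      ring
    have t2 : 4 * ε ^ 2 / a ^ 2 * ∑ n ∈ Finset.Icc 1 X,
        ArithmeticFunction.vonMangoldt n ^ 2 / (n : ℝ) ≤ η / 6 := by
      refine le_trans (mul_le_mul_of_nonneg_left s2 (by positivity)) ?_
      rw [hεsq]
      have h8 : L * (L + 6) ≤ 7 * (L * L) := by nlinarith
      have h9 : a ^ 2 = τ ^ 2 * (L * L) := by rw [ha']; ring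
      calc 4 * (τ ^ 2 * (η / 168)) / a ^ 2 * (L * (L + 6))
          ≤ 4 * (τ ^ 2 * (η / 168)) / a ^ 2 * (7 * (L * L)) :=
            mul_le_mul_of_nonneg_left h8 (by positivity)
        _ = η / 6 := by
            rw [h9]
            field_simp
            ring
    have t3 : 4 * K ^ 2 / a ^ 2 * ∑ n ∈ Finset.Icc 1 X, (if n.Prime then 0 else
        ArithmeticFunction.vonMangoldt n ^ 2 / (n : ℝ)) ≤ η / 6 := by
      have h8 : ∑ n ∈ Finset.Icc 1 X, (if n.Prime then 0 else
          ArithmeticFunction.vonMangoldt n ^ 2 / (n : ℝ)) ≤ L * C :=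
        s3.trans (mul_le_mul_of_nonneg_right hlX hC0)
      refine le_trans (mul_le_mul_of_nonneg_left h8 (by positivity)) (le_trans (le_of_eq ?_) h2.le)
      rw [hLa]
      field_simp
    linarith
  have hT12 : T + L ≤ 2 * T - L := by linarith
  have hQ : ∀ t : ℝ, 2 * (DPp (fun n => ((ArithmeticFunction.vonMangoldt n : ℝ) : ℂ)) (BN β N) a 0
        X t).re - Qs β N a t = (DD X (dc β N a) t).re := by
    intro t
    rw [Qs_eq β N a t X hfX, DPp_eq]
    have : DD X (dc β N a) t =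
        2 * DD X (dp (fun n => ((ArithmeticFunction.vonMangoldt n : ℝ) : ℂ)) (BN β N) a 0) t -
          DD X (qc β N a) t := by
      unfold DD dc
      rw [Finset.mul_sum, ← Finset.sum_sub_distrib]
      refine Finset.sum_congr rfl fun n _ => ?_
      ring
    rw [this, Complex.sub_re]
    congr 1
    simp
  simp only [hQ]
  refine (re_mv X _ _ hT12 _).trans ?_
  have hS0 : 0 ≤ ∑ n ∈ Finset.Icc 1 X, ‖dc β N a n‖ ^ 2 := Finset.sum_nonneg fun n _ => by positivity
  calc (2 * T - L - (T + L) + 8 * X * (1 + Real.log X)) * ∑ n ∈ Finset.Icc 1 X, ‖dc β N a n‖ ^ 2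
      ≤ (2 * T) * (η / 2) := mul_le_mul (by linarith) hS hS0 (by linarith)
    _ = η * T := by ring

end

end Pool.Agent.V8H58.OR
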