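import Pool.Agent.V8H58.OR.Dev
import Pool.Agent.W200.HW

set_option autoImplicit false

/-!
Project OR: the dyadic lemma.
-/

namespace Pool.Agent.V8H58.OR

open Filter Topology MeasureTheory Complex H370
open Pool.Agent.V8Lead.OR
open SG (NZ ord)

noncomputable section

/-- increments of the counting function -/
theorem NZ_inc : ∃ C : ℝ, 0 < C ∧ ∀ a : ℝ, 3 ≤ a → ∀ j : ℕ,
    (NZ (a + 2 * j) : ℝ) ≤ NZ a + C * j * Real.log (a + 2 * j) := by
  obtain ⟨C, hC, hz⟩ := H370.zcount H370.good_zeta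
  refine ⟨C, hC, fun a ha j => ?_⟩
  induction j with
  | zero => simp
  | succ j ih =>
    have hj0 : (0 : ℝ) ≤ j := Nat.cast_nonneg j
    have h1 := SG.NZ_le_add (a + 2 * j) (a + 2 * (j + 1 : ℕ)) (by linarith)
    have h3 := hz (a + 2 * j + 1) (by linarith)
    have e1 : a + 2 * j + 1 - 1 = a + 2 * j := by ring
    have e2 : a + 2 * j + 1 + 1 = a + 2 * ((j + 1 : ℕ) : ℝ) := by push_cast; ring
    rw [e1, e2] at h3
    have h4 : (NZ (a + 2 * ((j + 1 : ℕ) : ℝ)) : ℝ) ≤ NZ (a + 2 * j) +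
        H370.NN riemannZeta (a + 2 * j) (a + 2 * ((j + 1 : ℕ) : ℝ)) := by exact_mod_cast h1
    have h5 : Real.log (a + 2 * j + 1) ≤ Real.log (a + 2 * ((j + 1 : ℕ) : ℝ)) := by
      apply Real.log_le_log (by linarith)
      push_cast; linarith
    have h6 : Real.log (a + 2 * j) ≤ Real.log (a + 2 * ((j + 1 : ℕ) : ℝ)) := by
      apply Real.log_le_log (by linarith)
      push_cast; linarith
    have h7 : C * j * Real.log (a + 2 * j) ≤ C * j * Real.log (a + 2 * ((j + 1 : ℕ) : ℝ)) :=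
      mul_le_mul_of_nonneg_left h6 (by positivity)
    have h8 : C * Real.log (a + 2 * j + 1) ≤ C * Real.log (a + 2 * ((j + 1 : ℕ) : ℝ)) :=
      mul_le_mul_of_nonneg_left h5 hC.le
    push_cast at *
    linarith

/-- increments of the counting function at height `T` -/
theorem NZ_short : ∃ C : ℝ, 0 < C ∧ ∀ᶠ T : ℝ in atTop, ∀ a b : ℝ, T / 2 ≤ a → a ≤ b → b ≤ 3 * T →
    (NZ b : ℝ) - NZ a ≤ C * (b - a + 2) * Real.log T := by
  obtain ⟨C, hC, h⟩ := NZ_inc
  refine ⟨C, hC, ?_⟩
  filter_upwards [eventually_ge_atTop 6] with T hT a b ha hab hb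
  set j : ℕ := ⌈(b - a) / 2⌉₊ with hj
  have h1 : (b - a) / 2 ≤ j := Nat.le_ceil _
  have h2 : (j : ℝ) < (b - a) / 2 + 1 := Nat.ceil_lt_add_one (by linarith)
  have h3 := h a (by linarith) j
  have h4 : (NZ b : ℝ) ≤ NZ (a + 2 * (j : ℝ)) := by
    have h9 : b ≤ a + 2 * (j : ℝ) := by linarith
    exact_mod_cast SG.NZ_mono h9
  have hj0 : (0:ℝ) ≤ j := Nat.cast_nonneg j
  have h5 : Real.log (a + 2 * j) ≤ 2 * Real.log T := by
    have : Real.log (a + 2 * j) ≤ Real.log (T ^ 2) := by
      apply Real.log_le_log (by linarith)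
      nlinarith
    rwa [Real.log_pow, Nat.cast_ofNat] at this
  have h55 : 0 ≤ Real.log (a + 2 * j) := Real.log_nonneg (by linarith)
  have h6 : C * j * Real.log (a + 2 * j) ≤ C * ((b - a) / 2 + 1) * (2 * Real.log T) := by
    have := Real.log_nonneg (by linarith : (1:ℝ) ≤ T)
    have h10 : (j : ℝ) ≤ (b - a) / 2 + 1 := h2.le
    gcongr
  nlinarith

open Classical in
/-- number of bad indices up to height `X` -/
def bc (Bad : ℕ → Prop) (X : ℝ) : ℝ := (((Finset.Icc 1 (NZ X)).filter Bad).card : ℝ)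

theorem bc_le (Bad : ℕ → Prop) (X : ℝ) : bc Bad X ≤ NZ X := by
  classical
  unfold bc
  have := Finset.card_filter_le (Finset.Icc 1 (NZ X)) Bad
  rw [Nat.card_Icc] at this
  exact_mod_cast this

open Classical in
theorem bc_step (Bad : ℕ → Prop) (T : ℝ) (hT : 1 ≤ T) :
    bc Bad (2 * T) ≤ bc Bad T + (((Finset.Icc 1 (NZ (2 * T))).filter (fun n => T + 1 < ord n ∧
      ord n ≤ 2 * T - 1 ∧ Bad n)).card : ℝ) + ((NZ (T + 1) : ℝ) - NZ T) +
        ((NZ (2 * T) : ℝ) - NZ (2 * T - 1)) := by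
  unfold bc
  have _ := hT
  have m1 : NZ T ≤ NZ (T + 1) := SG.NZ_mono (by linarith)
  have m2 : NZ (2 * T - 1) ≤ NZ (2 * T) := SG.NZ_mono (by linarith)
  have hsub : (Finset.Icc 1 (NZ (2 * T))).filter Bad ⊆
      ((((Finset.Icc 1 (NZ T)).filter Bad) ∪ ((Finset.Icc 1 (NZ (2 * T))).filter (fun n => T + 1 < ord n ∧
      ord n ≤ 2 * T - 1 ∧ Bad n))) ∪ Finset.Ioc (NZ T) (NZ (T + 1))) ∪
        Finset.Ioc (NZ (2 * T - 1)) (NZ (2 * T)) := by
    intro n hn
    rw [Finset.mem_filter, Finset.mem_Icc] at hn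
    obtain ⟨⟨h1, h2⟩, h3⟩ := hn
    simp only [Finset.mem_union, Finset.mem_filter, Finset.mem_Icc, Finset.mem_Ioc]
    by_cases c1 : n ≤ NZ T
    · exact Or.inl (Or.inl (Or.inl ⟨⟨h1, c1⟩, h3⟩))
    by_cases c2 : n ≤ NZ (T + 1)
    · exact Or.inl (Or.inr ⟨not_le.mp c1, c2⟩)
    by_cases c3 : n ≤ NZ (2 * T - 1)
    · refine Or.inl (Or.inl (Or.inr ⟨⟨h1, h2⟩, ?_, ?_, h3⟩))
      · by_contra hcon
        push Not at hcon
        exact c2 ((SG.ord_le_iff h1 _).mp hcon)
      · exact (SG.ord_le_iff h1 _).mpr c3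
    · exact Or.inr ⟨not_le.mp c3, h2⟩
  have h1 := Finset.card_le_card hsub
  have h2 := (h1.trans (Finset.card_union_le _ _)).trans (Nat.add_le_add_right (Finset.card_union_le _ _) _)
  have h3 := h2.trans (Nat.add_le_add_right (Nat.add_le_add_right (Finset.card_union_le _ _) _) _)
  rw [Nat.card_Ioc, Nat.card_Ioc] at h3
  have h4 : ((((Finset.Icc 1 (NZ (2 * T))).filter Bad).card : ℕ) : ℝ) ≤ ((((Finset.Icc 1 (NZ T)).filter Bad).card +
    ((Finset.Icc 1 (NZ (2 * T))).filter (fun n => T + 1 < ord n ∧ ord n ≤ 2 * T - 1 ∧ Bad n)).card +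
    (NZ (T + 1) - NZ T) + (NZ (2 * T) - NZ (2 * T - 1)) : ℕ) : ℝ) := by exact_mod_cast h3
  push_cast [Nat.cast_sub m1, Nat.cast_sub m2] at h4
  linarith

/-- from dyadic blocks to initial segments -/
theorem t_DY : S_DY := by
  classical
  obtain ⟨Cs, hCs, hshort⟩ := NZ_short
  obtain ⟨T0, hT0⟩ := W200.HW.NZ_lower (1 / 2) (by norm_num)
  have hpi := Real.pi_pos
  -- `N ≥ c X log X` with `X = ord N`
  set c : ℝ := 1 / (16 * Real.pi) with hc
  have hc0 : 0 < c := by positivity
  refine ⟨2 / c + 1, by positivity, fun θ hθ ι Bad hB => ?_⟩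
  -- one step
  have hlog1 : ∀ᶠ T : ℝ in atTop, 6 * Cs * Real.log T ≤ θ * (T * Real.log T) := by
    filter_upwards [eventually_ge_atTop (6 * Cs / θ), eventually_ge_atTop 1] with T hT hT1
    have h1 := Real.log_nonneg hT1
    rw [div_le_iff₀ hθ] at hT
    nlinarith
  have hstep : ∀ᶠ T : ℝ in atTop, ∀ i, bc (Bad i) (2 * T) ≤ bc (Bad i) T + 2 * θ * (T * Real.log T) := by
    filter_upwards [hB, hshort, hlog1, eventually_ge_atTop 2] with T h1 h2 h3 h4 i
    have h5 := bc_step (Bad i) T (by linarith)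
    have h6 := h2 T (T + 1) (by linarith) (by linarith) (by linarith)
    have h7 := h2 (2 * T - 1) (2 * T) (by linarith) (by linarith) (by linarith)
    have h8 := h1 i
    have e1 : Cs * (T + 1 - T + 2) * Real.log T = 3 * Cs * Real.log T := by ring
    have e2 : Cs * (2 * T - (2 * T - 1) + 2) * Real.log T = 3 * Cs * Real.log T := by ring
    rw [e1] at h6
    rw [e2] at h7
    linarith
  obtain ⟨T1', hT1'⟩ := eventually_atTop.mp hstep
  set T1 := max T1' 2 with hT1
  have hT12 : 2 ≤ T1 := le_max_right _ _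
  have hmain : ∀ k : ℕ, ∀ X : ℝ, T1 ≤ X → X ≤ T1 * 2 ^ k → ∀ i,
      bc (Bad i) X ≤ NZ (2 * T1) + 2 * θ * (X * Real.log X) := by
    intro k
    induction k with
    | zero =>
      intro X h1 h2 i
      have h3 := bc_le (Bad i) X
      have h4 : (NZ X : ℝ) ≤ NZ (2 * T1) := by exact_mod_cast SG.NZ_mono (by linarith)
      have h5 : 0 ≤ Real.log X := Real.log_nonneg (by linarith)
      have h6 : 0 ≤ 2 * θ * (X * Real.log X) := by
        have : 0 ≤ X := by linarith
        positivity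
      linarith
    | succ k ih =>
      intro X h1 h2 i
      by_cases hX : X ≤ 2 * T1
      · have h3 := bc_le (Bad i) X
        have h4 : (NZ X : ℝ) ≤ NZ (2 * T1) := by exact_mod_cast SG.NZ_mono hX
        have h5 : 0 ≤ Real.log X := Real.log_nonneg (by linarith)
        have h6 : 0 ≤ 2 * θ * (X * Real.log X) := by
          have : 0 ≤ X := by linarith
          positivity
        linarith
      · push Not at hX
        have h3 := ih (X / 2) (by linarith) (by rw [pow_succ] at h2; linarith) i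
        have h4 := hT1' (X / 2) (by linarith [le_max_left T1' 2]) i
        rw [show 2 * (X / 2) = X by ring] at h4
        have h5 : Real.log (X / 2) ≤ Real.log X := Real.log_le_log (by linarith) (by linarith)
        have h6 : 2 * θ * (X / 2 * Real.log (X / 2)) ≤ 2 * θ * (X / 2 * Real.log X) := by
          have : 0 ≤ X / 2 := by linarith
          gcongr
        linarith
  -- the final step
  have hord := SG.ord_tendsto
  have hNlarge : ∀ᶠ N : ℕ in atTop, (NZ (2 * T1) : ℝ) ≤ θ * N := by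
    have : Tendsto (fun N : ℕ => θ * (N : ℝ)) atTop atTop :=
      Tendsto.const_mul_atTop hθ tendsto_natCast_atTop_atTop
    exact this.eventually_ge_atTop _
  filter_upwards [hord.eventually_ge_atTop T1, hord.eventually_ge_atTop (2 * T0), hord.eventually_ge_atTop 4,
    hNlarge, eventually_ge_atTop 1] with N h1 h2 h3 h4 h5 i
  set X := ord N with hX
  have a1 : N ≤ NZ X := SG.le_NZ_ord h5
  have a2 : NZ (X / 2) < N := by
    by_contra hcon
    push Not at hcon
    have := (SG.ord_le_iff h5 (X / 2)).mpr hcon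
    rw [← hX] at this
    linarith
  have a3 := hT0 (X / 2) (by linarith)
  have a4 : c * (X * Real.log X) ≤ N := by
    have b1 : (NZ (X / 2) : ℝ) ≤ N := by exact_mod_cast a2.le
    have b2 : Real.log X / 2 ≤ Real.log (X / 2) := by
      rw [Real.log_div (by linarith) (by norm_num)]
      have : Real.log 2 * 2 ≤ Real.log X := by
        have := Real.log_le_log (by norm_num) (show (2:ℝ) ^ 2 ≤ X by linarith)
        rw [Real.log_pow] at this
        push_cast at this
        linarith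
      linarith
    calc c * (X * Real.log X) = (1 - 1 / 2) * (X / 2 / (2 * Real.pi) * (Real.log X / 2)) := by
          rw [hc]; field_simp; ring
      _ ≤ (1 - 1 / 2) * (X / 2 / (2 * Real.pi) * Real.log (X / 2)) := by
          have : 0 ≤ X := by linarith
          gcongr
      _ ≤ NZ (X / 2) := a3
      _ ≤ N := b1
  obtain ⟨k, hk⟩ := pow_unbounded_of_one_lt (X / T1) (by norm_num : (1:ℝ) < 2)
  have a5 := hmain k X h1 (by
    rw [div_lt_iff₀ (by linarith)] at hk
    linarith) i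
  have a6 : (((Finset.Icc 1 N).filter (Bad i)).card : ℝ) ≤ bc (Bad i) X := by
    unfold bc
    have : ((Finset.Icc 1 N).filter (Bad i)).card ≤ ((Finset.Icc 1 (NZ X)).filter (Bad i)).card := by
      apply Finset.card_le_card
      exact Finset.filter_subset_filter _ (Finset.Icc_subset_Icc_right a1)
    exact_mod_cast this
  have a7 : 2 * θ * (X * Real.log X) ≤ 2 / c * θ * N := by
    rw [div_mul_eq_mul_div, div_mul_eq_mul_div, le_div_iff₀ hc0]
    nlinarith
  calc (((Finset.Icc 1 N).filter (Bad i)).card : ℝ) ≤ bc (Bad i) X := a6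
    _ ≤ NZ (2 * T1) + 2 * θ * (X * Real.log X) := a5
    _ ≤ θ * N + 2 / c * θ * N := by linarith
    _ = (2 / c + 1) * θ * N := by ring

end

end Pool.Agent.V8H58.OR
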