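import Pool.Agent.V8H58.OR.Br
import Pool.Agent.Y248.SW.KER

set_option autoImplicit false

/-!
Project OR: deviation of the window counts: the law of large numbers and tightness.
-/

namespace Pool.Agent.V8H58.OR

open Filter Topology MeasureTheory Complex H370
open Pool.Agent.V8Lead.OR
open SG (NZ ord)

noncomputable section

theorem log_small (c : ℝ) (hc : 0 < c) : ∀ᶠ T : ℝ in atTop, Real.log T ≤ c * T := by
  have := Real.isLittleO_log_id_atTop.bound hc
  filter_upwards [this, eventually_ge_atTop 1] with T hT hT1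
  rw [Real.norm_of_nonneg (Real.log_nonneg hT1), id, Real.norm_of_nonneg (by linarith)] at hT
  exact hT

/-- Markov on an interval -/
theorem markov {f : ℝ → ℝ} {a b ε : ℝ} (hab : a ≤ b) (hf : ∀ x, 0 ≤ f x)
    (hi : IntervalIntegrable f volume a b) :
    ε * volume.real ({x | ε ≤ f x} ∩ Set.Ioc a b) ≤ ∫ x in a..b, f x := by
  have h1 := mul_meas_ge_le_integral_of_nonneg (μ := volume.restrict (Set.Ioc a b)) (f := f)
    (Eventually.of_forall hf) ((intervalIntegrable_iff_integrableOn_Ioc_of_le hab).mp hi) ε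
  rw [intervalIntegral.integral_of_le hab]
  rwa [measureReal_restrict_apply' measurableSet_Ioc] at h1

/-- the decomposition of the window count into a function of bounded mean and the prime sum -/
theorem decomp (hC : S_CORE) (hL : S_L2Q) : ∃ τ C : ℝ, 0 < τ ∧ 0 < C ∧ ∃ β : ℝ → ℝ,
    ∀ s : ℝ, 1 ≤ Real.pi * τ * s → ∀ A : ℝ, ∀ᶠ T : ℝ in atTop, ∀ c : ℝ, |c| ≤ A →
      (∫ t in (T + 2 * Real.log T)..(2 * T - 2 * Real.log T),
          |Wc T s (t + c) - s + Qs β (Real.pi * τ * s) (τ * Real.log T) (t + c + Real.pi * s / Real.log T)|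
            ≤ C * T) ∧
      ∫ t in (T + 2 * Real.log T)..(2 * T - 2 * Real.log T),
          Qs β (Real.pi * τ * s) (τ * Real.log T) (t + c + Real.pi * s / Real.log T) ^ 2 ≤
            C * (1 + Real.log (Real.pi * τ * s)) * T := by
  obtain ⟨C0, β, D, hK, hD⟩ := Pool.Agent.Y248.SW.exists_ker 4
  obtain ⟨τ0, h0, h1, h2⟩ := core_Wc hC C0 D β hK hD
  obtain ⟨C1, hC1, h3⟩ := h2 τ0 h0 le_rfl
  obtain ⟨C2, hC2, h4⟩ := hL 4 C0 D β hK hD τ0 h0 h1
  refine ⟨τ0, max C1 C2, h0, lt_max_of_lt_left hC1, β, fun s hs A => ?_⟩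
  have hpi := Real.pi_pos
  have hs0 : 0 < s := by
    by_contra hcon
    push Not at hcon
    have : Real.pi * τ0 * s ≤ 0 := mul_nonpos_of_nonneg_of_nonpos (by positivity) hcon
    linarith
  have hlog : Tendsto Real.log atTop atTop := Real.tendsto_log_atTop
  filter_upwards [h3 s hs A, h4 _ hs, eventually_ge_atTop 1,
    hlog.eventually_ge_atTop (|A| + Real.pi * s + 1), log_small (1 / 4) (by norm_num)] with T hT hT' hT1 hT2 hT3 c hc
  refine ⟨(hT c hc).trans (mul_le_mul_of_nonneg_right (le_max_left _ _) (by linarith)), ?_⟩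
  set L := Real.log T with hL
  have hA : A ≤ |A| := le_abs_self A
  have hL1 : 1 ≤ L := by linarith [abs_nonneg A, show 0 < Real.pi * s by positivity]
  set r := Real.pi * s / L with hr
  have hr0 : 0 < r := by positivity
  have hr1 : r ≤ Real.pi * s := by rw [hr]; exact div_le_self (by positivity) hL1
  have hc1 := abs_le.mp hc
  set q := Qs β (Real.pi * τ0 * s) (τ0 * L) with hq
  have hqi : ∀ a b : ℝ, IntervalIntegrable (fun u => q u ^ 2) volume a b := fun a b =>
    ((Qs_cont β _ _).pow 2).intervalIntegrable _ _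
  calc ∫ t in (T + 2 * L)..(2 * T - 2 * L), q (t + c + r) ^ 2
      = ∫ t in (T + 2 * L)..(2 * T - 2 * L), (fun u => q u ^ 2) (t + (c + r)) := by
        apply intervalIntegral.integral_congr
        intro t _
        simp only
        rw [add_assoc]
    _ = ∫ u in (T + 2 * L + (c + r))..(2 * T - 2 * L + (c + r)), q u ^ 2 :=
        intervalIntegral.integral_comp_add_right (fun u => q u ^ 2) (c + r)
    _ ≤ ∫ u in T..(2 * T), q u ^ 2 := by
        apply intervalIntegral.integral_mono_interval _ _ _ _ (hqi _ _)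
        · linarith
        · linarith
        · linarith
        · exact Eventually.of_forall fun u => sq_nonneg _
    _ ≤ C2 * (1 + Real.log (Real.pi * τ0 * s)) * T := hT'
    _ ≤ max C1 C2 * (1 + Real.log (Real.pi * τ0 * s)) * T := by
        have h5 := Real.log_nonneg hs
        have h6 : C2 ≤ max C1 C2 := le_max_right _ _
        have : 0 ≤ T := by linarith
        gcongr

/-- deviations of the window counts -/
theorem dev (hC : S_CORE) (hL : S_L2Q) : ∃ τ C : ℝ, 0 < τ ∧ 0 < C ∧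
    ∀ s : ℝ, 1 ≤ Real.pi * τ * s → ∀ Y η : ℝ, 0 < Y → 0 < η → ∀ᶠ T : ℝ in atTop,
      volume.real {t : ℝ | T ≤ t ∧ t ≤ 2 * T ∧ Y ≤ |Wc T s t - s|} ≤
        (C / Y + C * (1 + Real.log (Real.pi * τ * s)) / Y ^ 2 + η) * T := by
  obtain ⟨τ, C, hτ, hC, β, h⟩ := decomp hC hL
  refine ⟨τ, 4 * C, hτ, by positivity, fun s hs Y η hY hη => ?_⟩
  filter_upwards [h s hs 0, eventually_ge_atTop 1, log_small (1 / 4) (by norm_num),
    log_small (η / 4) (by positivity)] with T hT hT1 hT2 hT3
  obtain ⟨h1, h2⟩ := hT 0 (by simp)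
  set L := Real.log T with hL
  have hL0 : 0 ≤ L := Real.log_nonneg hT1
  set q : ℝ → ℝ := fun t => Qs β (Real.pi * τ * s) (τ * L) (t + 0 + Real.pi * s / L) with hq
  set f : ℝ → ℝ := fun t => Wc T s (t + 0) - s + q t with hf
  have hqc : Continuous q := (Qs_cont _ _ _).comp (by fun_prop)
  have hfi : IntervalIntegrable (fun t => |f t|) volume (T + 2 * L) (2 * T - 2 * L) :=
    (((Wc_int T s 0 _ _).sub intervalIntegrable_const).add hqc.continuousOn.intervalIntegrable).abs
  have hqi : IntervalIntegrable (fun t => q t ^ 2) volume (T + 2 * L) (2 * T - 2 * L) :=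
    (hqc.pow 2).intervalIntegrable _ _
  have hab : T + 2 * L ≤ 2 * T - 2 * L := by linarith
  have m1 := markov (ε := Y / 2) hab (fun x => abs_nonneg (f x)) hfi
  have m2 := markov (ε := (Y / 2) ^ 2) hab (fun x => sq_nonneg (q x)) hqi
  set S1 := {x | Y / 2 ≤ |f x|} ∩ Set.Ioc (T + 2 * L) (2 * T - 2 * L) with hS1
  set S2 := {x | (Y / 2) ^ 2 ≤ q x ^ 2} ∩ Set.Ioc (T + 2 * L) (2 * T - 2 * L) with hS2
  have hsub : {t : ℝ | T ≤ t ∧ t ≤ 2 * T ∧ Y ≤ |Wc T s t - s|} ⊆
      (Set.Icc T (T + 2 * L) ∪ Set.Icc (2 * T - 2 * L) (2 * T)) ∪ (S1 ∪ S2) := by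
    rintro t ⟨a1, a2, a3⟩
    by_cases c1 : t ≤ T + 2 * L
    · exact Or.inl (Or.inl ⟨a1, c1⟩)
    by_cases c2 : 2 * T - 2 * L ≤ t
    · exact Or.inl (Or.inr ⟨c2, a2⟩)
    push Not at c1 c2
    right
    by_cases c3 : Y / 2 ≤ |f t|
    · exact Or.inl ⟨c3, c1, c2.le⟩
    · right
      refine ⟨?_, c1, c2.le⟩
      change (Y / 2) ^ 2 ≤ q t ^ 2
      rw [← sq_abs (q t)]
      apply pow_le_pow_left₀ (by positivity)
      push Not at c3
      have h5 : Wc T s t - s = f t - q t := by rw [hf]; simp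
      rw [h5] at a3
      have := abs_sub (f t) (q t)
      linarith
  have hfin : ∀ a b : ℝ, volume (Set.Icc a b) ≠ ⊤ := fun a b => measure_Icc_lt_top.ne
  have hfin2 : ∀ X : Set ℝ, volume (X ∩ Set.Ioc (T + 2 * L) (2 * T - 2 * L)) ≠ ⊤ := fun X =>
    ((measure_mono Set.inter_subset_right).trans_lt measure_Ioc_lt_top).ne
  have hm1 : volume.real ((Set.Icc T (T + 2 * L) ∪ Set.Icc (2 * T - 2 * L) (2 * T)) ∪ (S1 ∪ S2)) ≤
      (2 * L + 2 * L) + (volume.real S1 + volume.real S2) := by
    refine (measureReal_union_le _ _).trans (add_le_add ?_ (measureReal_union_le _ _))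
    refine (measureReal_union_le _ _).trans (add_le_add ?_ ?_)
    · rw [Real.volume_real_Icc_of_le (by linarith)]; linarith
    · rw [Real.volume_real_Icc_of_le (by linarith)]; linarith
  have hm2 : volume.real {t : ℝ | T ≤ t ∧ t ≤ 2 * T ∧ Y ≤ |Wc T s t - s|} ≤
      volume.real ((Set.Icc T (T + 2 * L) ∪ Set.Icc (2 * T - 2 * L) (2 * T)) ∪ (S1 ∪ S2)) := by
    refine measureReal_mono hsub ?_
    exact measure_union_ne_top (measure_union_ne_top (hfin _ _) (hfin _ _))
      (measure_union_ne_top (hfin2 _) (hfin2 _))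
  have hb1 : volume.real S1 ≤ 2 * C / Y * T := by
    have h5 : Y / 2 * volume.real S1 ≤ C * T := m1.trans h1
    rw [div_mul_eq_mul_div, le_div_iff₀ hY]
    linarith
  have hb2 : volume.real S2 ≤ 4 * (C * (1 + Real.log (Real.pi * τ * s))) / Y ^ 2 * T := by
    have h5 : (Y / 2) ^ 2 * volume.real S2 ≤ C * (1 + Real.log (Real.pi * τ * s)) * T := m2.trans h2
    rw [div_mul_eq_mul_div, le_div_iff₀ (by positivity)]
    nlinarith
  have h6 : 2 * C / Y * T ≤ 4 * C / Y * T := by
    have : 0 ≤ T := by linarith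
    gcongr
    norm_num
  calc _ ≤ (2 * L + 2 * L) + (volume.real S1 + volume.real S2) := hm2.trans hm1
    _ ≤ η * T + (4 * C / Y * T + 4 * (C * (1 + Real.log (Real.pi * τ * s))) / Y ^ 2 * T) := by
        have : 2 * L + 2 * L ≤ η * T := by linarith
        linarith
    _ = _ := by ring

/-- the law of large numbers for the window counts -/
theorem t_WL (hC : S_CORE) (hL : S_L2Q) : S_WL := by
  obtain ⟨τ, C, hτ, hC, h⟩ := dev hC hL
  intro κ ε hκ hε
  have hpi := Real.pi_pos
  -- C / (κ s) + C (1 + log (π τ s)) / (κ s)^2 ≤ ε / 2 for large s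
  have h1 : Tendsto (fun s : ℝ => C / (κ * s) + C * (1 + Real.log (Real.pi * τ * s)) / (κ * s) ^ 2) atTop (𝓝 0) := by
    have e1 : Tendsto (fun s : ℝ => C / (κ * s)) atTop (𝓝 0) :=
      Tendsto.const_div_atTop (tendsto_id.const_mul_atTop hκ) C
    have e2 : Tendsto (fun s : ℝ => Real.log (Real.pi * τ * s) / (Real.pi * τ * s)) atTop (𝓝 0) := by
      have h3 : Tendsto (fun x : ℝ => Real.log x / x) atTop (𝓝 0) := by
        have := Real.isLittleO_log_id_atTop.tendsto_div_nhds_zero
        simpa using this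
      exact h3.comp (tendsto_id.const_mul_atTop (by positivity : 0 < Real.pi * τ))
    have e3 : Tendsto (fun s : ℝ => 1 / s) atTop (𝓝 0) := by
      simpa using tendsto_inv_atTop_zero (𝕜 := ℝ)
    have e4 : Tendsto (fun s : ℝ => C / κ ^ 2 * ((1 / s) * (1 / s) + (Real.pi * τ) *
        (Real.log (Real.pi * τ * s) / (Real.pi * τ * s)) * (1 / s))) atTop (𝓝 0) := by
      have := ((e3.mul e3).add ((e2.const_mul (Real.pi * τ)).mul e3)).const_mul (C / κ ^ 2)
      simpa using this
    have e5 := e1.add e4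
    rw [add_zero] at e5
    apply e5.congr'
    filter_upwards [eventually_gt_atTop 0] with s hs
    field_simp
  have h2 : ∀ᶠ s : ℝ in atTop, C / (κ * s) + C * (1 + Real.log (Real.pi * τ * s)) / (κ * s) ^ 2 < ε / 2 :=
    h1.eventually_lt_const (by positivity)
  obtain ⟨s1, hs1⟩ := eventually_atTop.mp h2
  refine ⟨max 1 (max s1 (1 / (Real.pi * τ))), le_max_left _ _, fun s hs => ?_⟩
  have a1 : 1 ≤ s := (le_max_left _ _).trans hs
  have a2 : s1 ≤ s := (le_max_left _ _).trans ((le_max_right _ _).trans hs)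
  have a3 : 1 / (Real.pi * τ) ≤ s := (le_max_right _ _).trans ((le_max_right _ _).trans hs)
  have a4 : 1 ≤ Real.pi * τ * s := by
    rw [div_le_iff₀ (by positivity)] at a3
    linarith
  filter_upwards [h s a4 (κ * s) (ε / 2) (by positivity) (by positivity), eventually_ge_atTop 0] with T hT hT0
  refine hT.trans (mul_le_mul_of_nonneg_right ?_ hT0)
  have := hs1 s a2
  linarith

/-- tightness of the window counts -/
theorem t_WT (hC : S_CORE) (hL : S_L2Q) : S_WT := by
  obtain ⟨τ, C, hτ, hC, h⟩ := dev hC hL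
  intro s ε hs hε
  have hpi := Real.pi_pos
  set s' := max s (1 / (Real.pi * τ)) with hs'
  have a0 : s ≤ s' := le_max_left _ _
  have a3 : 1 / (Real.pi * τ) ≤ s' := le_max_right _ _
  have a4 : 1 ≤ Real.pi * τ * s' := by
    rw [div_le_iff₀ (by positivity)] at a3
    linarith
  have h1 : Tendsto (fun Y : ℝ => C / Y + C * (1 + Real.log (Real.pi * τ * s')) / Y ^ 2) atTop (𝓝 0) := by
    have e1 : Tendsto (fun s : ℝ => C / s) atTop (𝓝 0) := Tendsto.const_div_atTop tendsto_id C
    have e2 : Tendsto (fun Y : ℝ => C * (1 + Real.log (Real.pi * τ * s')) / Y ^ 2) atTop (𝓝 0) :=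
      Tendsto.const_div_atTop (tendsto_pow_atTop (by norm_num)) _
    simpa using e1.add e2
  obtain ⟨Y, hY⟩ := ((h1.eventually_lt_const (show 0 < ε / 2 by positivity)).and (eventually_gt_atTop 0)).exists
  refine ⟨s' + Y, by linarith, ?_⟩
  filter_upwards [h s' a4 Y (ε / 2) hY.2 (by positivity), eventually_ge_atTop 1] with T hT hT1
  refine le_trans ?_ (hT.trans (mul_le_mul_of_nonneg_right ?_ (by linarith)))
  · apply measureReal_mono
    · rintro t ⟨b1, b2, b3⟩
      refine ⟨b1, b2, ?_⟩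
      have := Wc_mono t hT1 a0
      exact le_trans (by linarith) (le_abs_self _)
    · exact ((measure_mono (fun t ht => (⟨ht.1, ht.2.1⟩ : t ∈ Set.Icc T (2 * T)))).trans_lt
        measure_Icc_lt_top).ne
  · linarith [hY.1]

end

end Pool.Agent.V8H58.OR
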