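import Pool.Agent.V8H58.OR.DY

set_option autoImplicit false

/-!
Project OR: few ordinates have a neighborhood in a small set.
-/

namespace Pool.Agent.V8H58.OR

open Filter Topology MeasureTheory Complex H370
open Pool.Agent.V8Lead.OR
open SG (NZ ord)

noncomputable section

theorem count_window (B : Finset ℕ) (hB : ∀ n ∈ B, 1 ≤ n) (r t : ℝ) (hr : 0 ≤ r) :
    ∑ n ∈ B, (Set.Ico (ord n - r) (ord n + r)).indicator (1 : ℝ → ℝ) t ≤ (NZ (t + r) : ℝ) - NZ (t - r) := by
  classical
  have h0 : NZ (t - r) ≤ NZ (t + r) := SG.NZ_mono (by linarith)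
  have h1 : ∑ n ∈ B, (Set.Ico (ord n - r) (ord n + r)).indicator (1 : ℝ → ℝ) t =
      ((B.filter (fun n => t ∈ Set.Ico (ord n - r) (ord n + r))).card : ℝ) := by
    rw [Finset.card_filter]
    push_cast
    apply Finset.sum_congr rfl
    intro n _
    by_cases h : t ∈ Set.Ico (ord n - r) (ord n + r)
    · rw [Set.indicator_of_mem h, if_pos h]; simp
    · rw [Set.indicator_of_notMem h, if_neg h]
  rw [h1]
  have h2 : (B.filter (fun n => t ∈ Set.Ico (ord n - r) (ord n + r))) ⊆ Finset.Ioc (NZ (t - r)) (NZ (t + r)) := by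
    intro n hn
    rw [Finset.mem_filter] at hn
    obtain ⟨h3, h4, h5⟩ := hn
    rw [Finset.mem_Ioc]
    constructor
    · by_contra hcon
      push Not at hcon
      have := (SG.ord_le_iff (hB n h3) _).mpr hcon
      linarith
    · exact (SG.ord_le_iff (hB n h3) _).mp (by linarith)
  have h3 := Finset.card_le_card h2
  rw [Nat.card_Ioc] at h3
  have h4 : ((B.filter (fun n => t ∈ Set.Ico (ord n - r) (ord n + r))).card : ℝ) ≤ ((NZ (t + r) - NZ (t - r) : ℕ) : ℝ) := by
    exact_mod_cast h3
  rwa [Nat.cast_sub h0] at h4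

/-- few ordinates have a neighborhood of `K` mean spacings in a small set -/
theorem t_UI (hC : S_CORE) (hL : S_L2Q) : S_UI := by
  classical
  obtain ⟨τ, C, hτ, hC, β, h⟩ := decomp hC hL
  obtain ⟨Cs, hCs, hshort⟩ := NZ_short
  have hpi := Real.pi_pos
  intro θ hθ
  refine ⟨max 1 (max (1 / (2 * Real.pi * τ)) (C / (Real.pi * θ))), le_max_left _ _, fun K hK => ?_⟩
  have hK1 : 1 ≤ K := (le_max_left _ _).trans hK
  have hK2 : 1 / (2 * Real.pi * τ) ≤ K := (le_max_left _ _).trans ((le_max_right _ _).trans hK)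
  have hK3 : C / (Real.pi * θ) ≤ K := (le_max_right _ _).trans ((le_max_right _ _).trans hK)
  set s : ℝ := 2 * K with hs
  have hs0 : 0 < s := by positivity
  have hs1 : 1 ≤ Real.pi * τ * s := by
    rw [div_le_iff₀ (by positivity)] at hK2
    rw [hs]; linarith
  have hC4 : C ≤ Real.pi * K * θ := by
    rw [div_le_iff₀ (by positivity)] at hK3
    linarith
  set Λ : ℝ := 1 + Real.log (Real.pi * τ * s) with hΛ
  have hΛ0 : 0 < Λ := by have := Real.log_nonneg hs1; positivity
  set lam : ℝ := Real.pi * K * θ / (C * Λ) with hlam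
  have hlam0 : 0 < lam := by positivity
  have hlam1 : lam * (C * Λ) = Real.pi * K * θ := by rw [hlam]; field_simp
  set ε : ℝ := Real.pi * K * θ / (s + 1 / (4 * lam)) with hε
  have hε0 : 0 < ε := by positivity
  have hε1 : (s + 1 / (4 * lam)) * ε = Real.pi * K * θ := by rw [hε]; field_simp
  refine ⟨ε, hε0, ?_⟩
  have hlog : Tendsto Real.log atTop atTop := Real.tendsto_log_atTop
  filter_upwards [h s hs1 (Real.pi * s), hshort, eventually_ge_atTop 1,
    hlog.eventually_ge_atTop (Real.pi * s + 2), log_small (1 / 12) (by norm_num),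
    log_small (θ / (64 * Cs)) (by positivity)] with T hT hsh hT1 hT2 hT3 hT4 E hE hE2
  set L := Real.log T with hLdef
  have hL1 : 1 ≤ L := by have : 0 < Real.pi * s := by positivity
                         linarith
  set r := Real.pi * s / L with hr
  have hr0 : 0 < r := by positivity
  have hr1 : r ≤ Real.pi * s := by rw [hr]; exact div_le_self (by positivity) hL1
  have hrL : r ≤ L := by linarith
  have hT0 : 0 < T := by linarith
  obtain ⟨h1, h2⟩ := hT (-r) (by rw [abs_neg, abs_of_pos hr0]; exact hr1)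
  set q : ℝ → ℝ := fun t => Qs β (Real.pi * τ * s) (τ * L) (t + -r + r) with hq
  set f : ℝ → ℝ := fun t => Wc T s (t + -r) - s + q t with hf
  change ∫ t in (T + 2 * L)..(2 * T - 2 * L), |f t| ≤ C * T at h1
  change ∫ t in (T + 2 * L)..(2 * T - 2 * L), q t ^ 2 ≤ C * Λ * T at h2
  have hab : T + 2 * L ≤ 2 * T - 2 * L := by linarith
  have hqc : Continuous q := (Qs_cont _ _ _).comp (by fun_prop)
  have hfi : IntervalIntegrable (fun t => |f t|) volume (T + 2 * L) (2 * T - 2 * L) :=
    (((Wc_int T s (-r) _ _).sub intervalIntegrable_const).add hqc.continuousOn.intervalIntegrable).abs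
  have hqi : IntervalIntegrable (fun t => q t ^ 2) volume (T + 2 * L) (2 * T - 2 * L) :=
    (hqc.pow 2).intervalIntegrable _ _
  have hWi : IntervalIntegrable (fun t => Wc T s (t + -r)) volume (T + 2 * L) (2 * T - 2 * L) := Wc_int T s (-r) _ _
  -- the set
  set J := Set.Ioc (T + 2 * L) (2 * T - 2 * L) with hJ
  set E1 := toMeasurable volume E ∩ J with hE1
  have hE1m : MeasurableSet E1 := (measurableSet_toMeasurable _ _).inter measurableSet_Ioc
  have hEfin : volume E ≠ ⊤ := ((measure_mono hE).trans_lt measure_Icc_lt_top).ne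
  have hE1fin : volume E1 ≠ ⊤ := ((measure_mono Set.inter_subset_right).trans_lt measure_Ioc_lt_top).ne
  have hE1v : volume.real E1 ≤ ε * T := by
    refine le_trans ?_ hE2
    unfold Measure.real
    apply ENNReal.toReal_mono hEfin
    calc volume E1 ≤ volume (toMeasurable volume E) := measure_mono Set.inter_subset_left
      _ = volume E := measure_toMeasurable E
  -- the bad indices away from the ends
  set r2 := 2 * Real.pi * K / L with hr2
  have hrr : r2 = r := by rw [hr2, hr, hs]; ring
  set B := (Finset.Icc 1 (NZ (2 * T))).filter (fun n => Set.Icc (ord n - r2) (ord n + r2) ⊆ E) with hBdef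
  set B1 := B.filter (fun n => T + 3 * L < ord n ∧ ord n ≤ 2 * T - 3 * L) with hB1
  have hB1m : ∀ n ∈ B1, 1 ≤ n ∧ Set.Ico (ord n - r) (ord n + r) ⊆ E1 := by
    intro n hn
    rw [hB1, Finset.mem_filter, hBdef, Finset.mem_filter, Finset.mem_Icc] at hn
    obtain ⟨⟨⟨a1, a2⟩, a3⟩, a4, a5⟩ := hn
    refine ⟨a1, fun x hx => ⟨?_, ?_⟩⟩
    · apply subset_toMeasurable
      apply a3
      rw [hrr]
      exact ⟨hx.1, hx.2.le⟩
    · exact ⟨by linarith [hx.1], by linarith [hx.2]⟩
  -- lower bound
  have hsub : ∀ n ∈ B1, volume.real (Set.Ico (ord n - r) (ord n + r)) = 2 * r := by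
    intro n _
    rw [Real.volume_real_Ico_of_le (by linarith)]; ring
  have hJint : ∀ g : ℝ → ℝ, IntervalIntegrable g volume (T + 2 * L) (2 * T - 2 * L) → IntegrableOn g E1 volume :=
    fun g hg => ((intervalIntegrable_iff_integrableOn_Ioc_of_le hab).mp hg).mono_set Set.inter_subset_right
  have hlow : (B1.card : ℝ) * (2 * r) ≤ ∫ t in E1, Wc T s (t + -r) := by
    have e1 : ∀ n ∈ B1, ∫ t in E1, (Set.Ico (ord n - r) (ord n + r)).indicator (1 : ℝ → ℝ) t = 2 * r := by
      intro n hn
      rw [integral_indicator_one measurableSet_Ico, measureReal_restrict_apply measurableSet_Ico,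
        Set.inter_eq_left.mpr (hB1m n hn).2, hsub n hn]
    have e2 : ∫ t in E1, ∑ n ∈ B1, (Set.Ico (ord n - r) (ord n + r)).indicator (1 : ℝ → ℝ) t =
        (B1.card : ℝ) * (2 * r) := by
      rw [integral_finsetSum]
      · rw [Finset.sum_congr rfl e1, Finset.sum_const, nsmul_eq_mul]
      · intro n _
        apply Integrable.indicator _ measurableSet_Ico
        exact integrableOn_const hE1fin
    rw [← e2]
    apply setIntegral_mono_on
    · apply integrable_finsetSum
      intro n _
      apply Integrable.indicator _ measurableSet_Ico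
      exact integrableOn_const hE1fin
    · exact hJint _ hWi
    · exact hE1m
    · intro t _
      have := count_window B1 (fun n hn => (hB1m n hn).1) r t hr0.le
      refine this.trans (le_of_eq ?_)
      unfold Wc
      rw [show t + -r + 2 * Real.pi * s / Real.log T = t + r by rw [← hLdef, hr]; ring,
        show t + -r = t - r by ring]
  -- upper bound
  have hup : ∫ t in E1, Wc T s (t + -r) ≤ (C + Real.pi * K * θ + Real.pi * K * θ) * T := by
    have b1 : ∫ t in E1, Wc T s (t + -r) ≤ ∫ t in E1, (|f t| + lam * q t ^ 2 + (s + 1 / (4 * lam))) := by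
      apply setIntegral_mono_on
      · exact hJint _ hWi
      · exact ((hJint _ hfi).add ((hJint _ hqi).const_mul lam)).add (integrableOn_const hE1fin)
      · exact hE1m
      · intro t _
        have c1 : Wc T s (t + -r) = f t + s - q t := by rw [hf]; ring
        rw [c1]
        have c2 := le_abs_self (f t)
        have c3 : - q t ≤ lam * q t ^ 2 + 1 / (4 * lam) := by
          have : 0 ≤ (2 * lam * q t + 1) ^ 2 / (4 * lam) := by positivity
          have e : (2 * lam * q t + 1) ^ 2 / (4 * lam) = lam * q t ^ 2 + 1 / (4 * lam) + q t := by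
            field_simp; ring
          linarith
        linarith
    have b2 : ∫ t in E1, (|f t| + lam * q t ^ 2 + (s + 1 / (4 * lam))) = (∫ t in E1, |f t|) +
        lam * (∫ t in E1, q t ^ 2) + (s + 1 / (4 * lam)) * volume.real E1 := by
      rw [integral_add, integral_add, integral_const_mul, setIntegral_const, smul_eq_mul]
      · ring
      · exact hJint _ hfi
      · exact (hJint _ hqi).const_mul lam
      · exact (hJint _ hfi).add ((hJint _ hqi).const_mul lam)
      · exact integrableOn_const hE1fin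
    have b3 : ∫ t in E1, |f t| ≤ C * T := by
      refine le_trans ?_ h1
      rw [intervalIntegral.integral_of_le hab]
      apply setIntegral_mono_set
      · exact (intervalIntegrable_iff_integrableOn_Ioc_of_le hab).mp hfi
      · exact Eventually.of_forall fun t => abs_nonneg _
      · exact (Set.inter_subset_right).eventuallyLE
    have b4 : ∫ t in E1, q t ^ 2 ≤ C * Λ * T := by
      refine le_trans ?_ h2
      rw [intervalIntegral.integral_of_le hab]
      apply setIntegral_mono_set
      · exact (intervalIntegrable_iff_integrableOn_Ioc_of_le hab).mp hqi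
      · exact Eventually.of_forall fun t => sq_nonneg _
      · exact (Set.inter_subset_right).eventuallyLE
    have b5 : lam * (∫ t in E1, q t ^ 2) ≤ Real.pi * K * θ * T := by
      rw [← hlam1]
      calc lam * (∫ t in E1, q t ^ 2) ≤ lam * (C * Λ * T) := by gcongr
        _ = _ := by ring
    have b6 : (s + 1 / (4 * lam)) * volume.real E1 ≤ Real.pi * K * θ * T := by
      rw [← hε1]
      calc (s + 1 / (4 * lam)) * volume.real E1 ≤ (s + 1 / (4 * lam)) * (ε * T) := by gcongr
        _ = _ := by ring
    rw [b2] at b1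
    linarith
  have hB1c : (B1.card : ℝ) ≤ 3 * θ / 4 * (T * L) := by
    have c1 := hlow.trans hup
    have c2 : (B1.card : ℝ) * (2 * r) ≤ 3 * (Real.pi * K * θ) * T := c1.trans (by
      apply mul_le_mul_of_nonneg_right _ hT0.le
      linarith)
    have c3 : 2 * r = 4 * Real.pi * K / L := by rw [hr, hs]; ring
    rw [c3, mul_div_assoc', div_le_iff₀ (by linarith)] at c2
    have c4 : (B1.card : ℝ) * (4 * Real.pi * K) ≤ (3 * θ / 4 * (T * L)) * (4 * Real.pi * K) := by
      calc _ ≤ 3 * (Real.pi * K * θ) * T * L := c2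
        _ = _ := by ring
    exact le_of_mul_le_mul_right c4 (by positivity)
  -- the ends
  have hBc : (B.card : ℝ) ≤ B1.card + ((NZ (T + 3 * L) : ℝ) - NZ (T - 1)) + ((NZ (2 * T) : ℝ) - NZ (2 * T - 3 * L)) := by
    have m1 : NZ (T - 1) ≤ NZ (T + 3 * L) := SG.NZ_mono (by linarith)
    have m2 : NZ (2 * T - 3 * L) ≤ NZ (2 * T) := SG.NZ_mono (by linarith)
    have hsub : B ⊆ (B1 ∪ Finset.Ioc (NZ (T - 1)) (NZ (T + 3 * L))) ∪ Finset.Ioc (NZ (2 * T - 3 * L)) (NZ (2 * T)) := by
      intro n hn
      have hn' := hn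
      rw [hBdef, Finset.mem_filter, Finset.mem_Icc] at hn'
      obtain ⟨⟨a1, a2⟩, a3⟩ := hn'
      have a4 : T ≤ ord n := by
        have := hE (a3 (show ord n ∈ Set.Icc (ord n - r2) (ord n + r2) by rw [hrr]; constructor <;> linarith))
        exact this.1
      simp only [Finset.mem_union, Finset.mem_Ioc, hB1, Finset.mem_filter]
      by_cases c1 : n ≤ NZ (T + 3 * L)
      · refine Or.inl (Or.inr ⟨?_, c1⟩)
        by_contra hcon
        push Not at hcon
        have := (SG.ord_le_iff a1 _).mpr hcon
        linarith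
      by_cases c2 : n ≤ NZ (2 * T - 3 * L)
      · refine Or.inl (Or.inl ⟨hn, ?_, ?_⟩)
        · by_contra hcon
          push Not at hcon
          exact c1 ((SG.ord_le_iff a1 _).mp hcon)
        · exact (SG.ord_le_iff a1 _).mpr c2
      · exact Or.inr ⟨not_le.mp c2, a2⟩
    have g1 := Finset.card_le_card hsub
    have g2 := (g1.trans (Finset.card_union_le _ _)).trans (Nat.add_le_add_right (Finset.card_union_le _ _) _)
    rw [Nat.card_Ioc, Nat.card_Ioc] at g2
    have g3 : (B.card : ℝ) ≤ ((B1.card + (NZ (T + 3 * L) - NZ (T - 1)) + (NZ (2 * T) - NZ (2 * T - 3 * L)) : ℕ) : ℝ) := by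
      exact_mod_cast g2
    push_cast [Nat.cast_sub m1, Nat.cast_sub m2] at g3
    linarith
  have s1 := hsh (T - 1) (T + 3 * L) (by linarith) (by linarith) (by linarith)
  have s2 := hsh (2 * T - 3 * L) (2 * T) (by linarith) (by linarith) (by linarith)
  have s3 : Cs * (T + 3 * L - (T - 1) + 2) * L + Cs * (2 * T - (2 * T - 3 * L) + 2) * L ≤ θ / 4 * (T * L) := by
    have e1 : Cs * (T + 3 * L - (T - 1) + 2) * L + Cs * (2 * T - (2 * T - 3 * L) + 2) * L = Cs * (6 * L + 5) * L := by
      ring
    rw [e1]
    have e2 : Cs * (6 * L + 5) ≤ Cs * (16 * L) := by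
      apply mul_le_mul_of_nonneg_left _ hCs.le
      linarith
    have e3 : Cs * (16 * L) ≤ θ / 4 * T := by
      have : Cs * (16 * L) ≤ Cs * (16 * (θ / (64 * Cs) * T)) := by gcongr
      refine this.trans (le_of_eq ?_)
      field_simp
      norm_num
    calc Cs * (6 * L + 5) * L ≤ (θ / 4 * T) * L := mul_le_mul_of_nonneg_right (e2.trans e3) (by linarith)
      _ = _ := by ring
  have : (B.card : ℝ) ≤ θ * (T * L) := by linarith
  exact this

end

end Pool.Agent.V8H58.OR
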